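import Pool.Agent.H677.JK.Graph
import Pool.Agent.H677.JS.Red

/-!
# The reduction on adjacency matrices
-/

set_option autoImplicit false
set_option linter.unusedSectionVars false

namespace Pool.Agent.NPC.JK677

open Finset Pool.Agent.H677.FE Pool.Agent.NPC.UB129 Pool.Agent.NPC.R671 Pool.Agent.NPC.FE677
  Pool.Agent.H677.JS Pool.Agent.H677.JK Pool.Agent.NPC.JS677

/-! ### Increasing lists -/

/-- The increasing lists of `k` numbers below `m`. -/
def combs (m : ℕ) : ℕ → List (List ℕ)
  | 0 => [[]]
  | k + 1 => (combs m k).flatMap fun l => (List.range m).flatMap fun a =>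
      bif l.all (fun x => decide (a < x)) then [a :: l] else []

theorem mem_combs {m k : ℕ} {l : List ℕ} :
    l ∈ combs m k ↔ l.length = k ∧ l.Pairwise (· < ·) ∧ ∀ x ∈ l, x < m := by
  induction k generalizing l with
  | zero =>
    rw [combs, List.mem_singleton]
    constructor
    · rintro rfl
      exact ⟨rfl, List.Pairwise.nil, fun x hx => absurd hx List.not_mem_nil⟩
    · exact fun h => List.length_eq_zero_iff.1 h.1
  | succ k ih =>
    rw [combs, List.mem_flatMap]
    constructor
    · rintro ⟨l', hl', h⟩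
      rw [List.mem_flatMap] at h
      obtain ⟨a, ha, h⟩ := h
      rw [ih] at hl'
      rw [List.mem_range] at ha
      cases hb : l'.all (fun x => decide (a < x)) with
      | false =>
        rw [hb, cond_false] at h
        exact absurd h List.not_mem_nil
      | true =>
        rw [hb, cond_true, List.mem_singleton] at h
        subst h
        rw [List.all_eq_true] at hb
        refine ⟨by rw [List.length_cons, hl'.1], List.pairwise_cons.2
          ⟨fun x hx => of_decide_eq_true (hb x hx), hl'.2.1⟩, fun x hx => ?_⟩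
        rcases List.mem_cons.1 hx with rfl | hx
        · exact ha
        · exact hl'.2.2 x hx
    · rintro ⟨h1, h2, h3⟩
      obtain ⟨a, l', rfl⟩ : ∃ a l', l = a :: l' := by
        cases l with
        | nil => exact absurd h1 (by simp)
        | cons a l' => exact ⟨a, l', rfl⟩
      rw [List.pairwise_cons] at h2
      refine ⟨l', ih.2 ⟨by simpa using h1, h2.2, fun x hx => h3 x (List.mem_cons_of_mem _ hx)⟩, ?_⟩
      rw [List.mem_flatMap]
      refine ⟨a, List.mem_range.2 (h3 a List.mem_cons_self), ?_⟩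
      have hb : l'.all (fun x => decide (a < x)) = true := by
        rw [List.all_eq_true]
        exact fun x hx => decide_eq_true (h2.1 x hx)
      rw [hb, cond_true]
      exact List.mem_singleton_self _

theorem nodup_combs (m k : ℕ) : (combs m k).Nodup := by
  induction k with
  | zero => exact List.nodup_singleton _
  | succ k ih =>
    rw [combs, List.nodup_flatMap]
    have hmem : ∀ (l x : List ℕ), (x ∈ (List.range m).flatMap fun a =>
        bif l.all (fun x => decide (a < x)) then [a :: l] else []) → ∃ a, x = a :: l := by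
      intro l x hx
      rw [List.mem_flatMap] at hx
      obtain ⟨a, _, h⟩ := hx
      exact ⟨a, eq_of_mem_cond h⟩
    refine ⟨fun l _ => ?_, ?_⟩
    · rw [List.nodup_flatMap]
      refine ⟨fun a _ => ?_, ?_⟩
      · cases l.all (fun x => decide (a < x))
        · exact List.nodup_nil
        · exact List.nodup_singleton _
      · refine List.Pairwise.imp_of_mem ?_ (List.nodup_range (n := m))
        intro a a' _ _ hne x h1 h2
        have e1 : x = a :: l := eq_of_mem_cond h1
        have e2 : x = a' :: l := eq_of_mem_cond h2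
        rw [e1] at e2
        injection e2 with e2 _
        exact hne e2
    · refine List.Pairwise.imp_of_mem ?_ ih
      intro l l' _ _ hne x h1 h2
      obtain ⟨a, e1⟩ := hmem l x h1
      obtain ⟨a', e2⟩ := hmem l' x h2
      rw [e1] at e2
      injection e2 with _ e2
      exact hne e2

theorem lt_of_mem_combs {m k : ℕ} {l : List ℕ} (h : l ∈ combs m k) {x : ℕ} (hx : x ∈ l) : x < m :=
  (mem_combs.1 h).2.2 x hx

theorem nodup_of_mem_combs {m k : ℕ} {l : List ℕ} (h : l ∈ combs m k) : l.Nodup :=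
  (mem_combs.1 h).2.1.imp fun h => h.ne

/-- The subset of an increasing list. -/
theorem card_pts_combs {m k : ℕ} {l : List ℕ} (h : l ∈ combs m k) : (pts m l).card = k := by
  rw [card_pts (fun x hx => lt_of_mem_combs h hx) (nodup_of_mem_combs h)]
  exact (mem_combs.1 h).1

theorem pts_combs_inj {m k : ℕ} {l l' : List ℕ} (h : l ∈ combs m k) (h' : l' ∈ combs m k)
    (he : pts m l = pts m l') : l = l' := by
  have hmem : ∀ x, x ∈ l ↔ x ∈ l' := by
    intro x
    constructor
    · intro hx
      have h1 : (⟨x, lt_of_mem_combs h hx⟩ : Fin m) ∈ pts m l := mem_pts.2 hx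
      rw [he] at h1
      exact mem_pts.1 h1
    · intro hx
      have h1 : (⟨x, lt_of_mem_combs h' hx⟩ : Fin m) ∈ pts m l' := mem_pts.2 hx
      rw [← he] at h1
      exact mem_pts.1 h1
  have hp : l.Perm l' :=
    (List.perm_ext_iff_of_nodup (nodup_of_mem_combs h) (nodup_of_mem_combs h')).2 hmem
  exact hp.eq_of_pairwise (fun a b _ _ h1 h2 => absurd h1 (lt_asymm h2)) (mem_combs.1 h).2.1
    (mem_combs.1 h').2.1

/-- The numbering of the subsets. -/
def tr (m k : ℕ) (s : Fin (combs m k).length) : Sb (Fin m) k :=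
  ⟨pts m (combs m k)[s], card_pts_combs (List.getElem_mem s.isLt)⟩

theorem exists_combs {m k : ℕ} (T : Sb (Fin m) k) : ∃ l ∈ combs m k, pts m l = T.1 := by
  refine ⟨(T.1.sort (· ≤ ·)).map (fun x : Fin m => (x : ℕ)), mem_combs.2 ⟨?_, ?_, ?_⟩, ?_⟩
  · rw [List.length_map, Finset.length_sort, T.2]
  · rw [List.pairwise_map]
    exact (Finset.sortedLT_sort T.1).pairwise
  · intro x hx
    rw [List.mem_map] at hx
    obtain ⟨y, _, rfl⟩ := hx
    exact y.isLt
  · ext x
    rw [mem_pts, List.mem_map]
    constructor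
    · rintro ⟨y, hy, hxy⟩
      rw [Finset.mem_sort] at hy
      rw [← Fin.ext hxy]
      exact hy
    · exact fun hx => ⟨x, (Finset.mem_sort _).2 hx, rfl⟩

theorem tr_bijective (m k : ℕ) : Function.Bijective (tr m k) := by
  constructor
  · intro s t h
    have h1 := congrArg Subtype.val h
    have h2 := pts_combs_inj (List.getElem_mem s.isLt) (List.getElem_mem t.isLt) h1
    exact Fin.ext ((List.Nodup.getElem_inj_iff (nodup_combs m k)).1 h2)
  · intro T
    obtain ⟨l, hl, hT⟩ := exists_combs T
    obtain ⟨i, hi, h2⟩ := List.getElem_of_mem hl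
    refine ⟨⟨i, hi⟩, Subtype.ext ?_⟩
    show pts m (combs m k)[i] = T.1
    rw [h2, hT]

/-- The numbering of the subsets, as an equivalence. -/
noncomputable def trE (m k : ℕ) : Fin (combs m k).length ≃ Sb (Fin m) k :=
  Equiv.ofBijective (tr m k) (tr_bijective m k)

/-! ### The tests -/

/-- All elements of the list belong to one of two adjacent vertices. -/
def covB (M : Mat) (i : ℕ) (l : List ℕ) (u w : ℕ) : Bool :=
  ent M u w && l.all fun p => decide (p / i = u) || decide (p / i = w)

/-- The remaining points of the two vertices belong to `e`. -/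
def resB (N i : ℕ) (l e : List ℕ) (u w : ℕ) : Bool :=
  (List.range N).all fun p => (!(decide (p / i = u) || decide (p / i = w))) ||
    (decide (p ∈ l) || decide (p ∈ e))

/-- Incidence. -/
def incB (M : Mat) (i : ℕ) (l e : List ℕ) : Bool :=
  ((e.all fun x => decide (x ∈ l)) && (List.range M.length).all fun u =>
    (List.range M.length).all fun w => !covB M i l u w) ||
  ((List.range M.length).any fun u => (List.range M.length).any fun w =>
    covB M i l u w && (resB (M.length * i) i l e u w && covB M i e u w))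

/-- Adjacency. -/
def adjX (M : Mat) (i : ℕ) (s t : ℕ) : Bool :=
  (!decide (s = t)) && (combs (M.length * i) i).any fun e =>
    incB M i ((combs (M.length * i) (i + 1)).getD s []) e &&
      incB M i ((combs (M.length * i) (i + 1)).getD t []) e

/-- The number of vertices. -/
def numX (i n : ℕ) : ℕ := (combs (n * i) (i + 1)).length

/-- The adjacency matrix of the graph of a graph. -/
def redX (i : ℕ) (M : Mat) : Mat :=
  (List.range (numX i M.length)).map fun s => (List.range (numX i M.length)).map fun t =>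
    adjX M i s t

theorem covB_pts {n i : ℕ} (G : SimpleGraph (Fin n)) {l : List ℕ} (hl : ∀ x ∈ l, x < n * i)
    (u w : Fin n) : covB (adjMatrix G) i l u w = true ↔
      G.Adj u w ∧ pts (n * i) l ⊆ fib (vx n i) u ∪ fib (vx n i) w := by
  unfold covB
  rw [Bool.and_eq_true, ent_adjMatrix, List.all_eq_true]
  refine and_congr Iff.rfl ?_
  constructor
  · intro h p hp
    rw [mem_pts] at hp
    have h1 := h p hp
    rw [Bool.or_eq_true, decide_eq_true_eq, decide_eq_true_eq] at h1
    rw [mem_union, mem_fib, mem_fib]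
    rcases h1 with h1 | h1
    · exact Or.inl (Fin.ext h1)
    · exact Or.inr (Fin.ext h1)
  · intro h p hp
    have h1 : (⟨p, hl p hp⟩ : Fin (n * i)) ∈ pts (n * i) l := mem_pts.2 hp
    have h2 := h h1
    rw [mem_union, mem_fib, mem_fib] at h2
    rw [Bool.or_eq_true, decide_eq_true_eq, decide_eq_true_eq]
    rcases h2 with h2 | h2
    · exact Or.inl (congrArg (fun x : Fin n => (x : ℕ)) h2)
    · exact Or.inr (congrArg (fun x : Fin n => (x : ℕ)) h2)

theorem resB_pts {n i : ℕ} {l e : List ℕ} (u w : Fin n) :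
    resB (n * i) i l e u w = true ↔
      (fib (vx n i) u ∪ fib (vx n i) w) \ pts (n * i) l ⊆ pts (n * i) e := by
  unfold resB
  rw [List.all_eq_true]
  constructor
  · intro h p hp
    rw [mem_sdiff, mem_union, mem_fib, mem_fib, mem_pts] at hp
    rw [mem_pts]
    have h1 := h p (List.mem_range.2 p.isLt)
    rw [Bool.or_eq_true, Bool.or_eq_true, Bool.not_eq_true', decide_eq_true_eq,
      decide_eq_true_eq, Bool.or_eq_false_iff, decide_eq_false_iff_not,
      decide_eq_false_iff_not] at h1
    rcases h1 with h1 | h1 | h1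
    · exfalso
      rcases hp.1 with h2 | h2
      · exact h1.1 (congrArg (fun x : Fin n => (x : ℕ)) h2)
      · exact h1.2 (congrArg (fun x : Fin n => (x : ℕ)) h2)
    · exact absurd h1 hp.2
    · exact h1
  · intro h p hp
    rw [List.mem_range] at hp
    rw [Bool.or_eq_true, Bool.or_eq_true, Bool.not_eq_true', decide_eq_true_eq,
      decide_eq_true_eq, Bool.or_eq_false_iff, decide_eq_false_iff_not,
      decide_eq_false_iff_not]
    by_cases hl : p ∈ l
    · exact Or.inr (Or.inl hl)
    · by_cases hu : p / i = u ∨ p / i = w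
      · right; right
        have h1 : (⟨p, hp⟩ : Fin (n * i)) ∈
            (fib (vx n i) u ∪ fib (vx n i) w) \ pts (n * i) l := by
          rw [mem_sdiff, mem_union, mem_fib, mem_fib, mem_pts]
          refine ⟨?_, hl⟩
          rcases hu with hu | hu
          · exact Or.inl (Fin.ext hu)
          · exact Or.inr (Fin.ext hu)
        exact mem_pts.1 (h h1)
      · rw [not_or] at hu
        exact Or.inl hu

theorem incB_iff {n i : ℕ} (G : SimpleGraph (Fin n)) {l e : List ℕ}
    (hl : l ∈ combs (n * i) (i + 1)) (he : e ∈ combs (n * i) i) :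
    incB (adjMatrix G) i l e = true ↔
      inc (YG G (vx n i)) ⟨pts (n * i) e, card_pts_combs he⟩
        ⟨pts (n * i) l, card_pts_combs hl⟩ := by
  have hlt : ∀ z ∈ l, z < n * i := fun z hz => lt_of_mem_combs hl hz
  have hlt' : ∀ z ∈ e, z < n * i := fun z hz => lt_of_mem_combs he hz
  have hsub : ((e.all fun x => decide (x ∈ l)) = true) ↔ pts (n * i) e ⊆ pts (n * i) l := by
    rw [List.all_eq_true]
    constructor
    · intro h p hp
      rw [mem_pts] at hp ⊢
      exact of_decide_eq_true (h p hp)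
    · intro h p hp
      have h1 : (⟨p, hlt' p hp⟩ : Fin (n * i)) ∈ pts (n * i) e := mem_pts.2 hp
      exact decide_eq_true (mem_pts.1 (h h1))
  unfold incB Pool.Agent.H677.JK.inc
  rw [Bool.or_eq_true, Bool.and_eq_true, hsub, List.all_eq_true, List.any_eq_true,
    length_adjMatrix]
  refine or_congr (and_congr Iff.rfl ?_) ?_
  · constructor
    · intro h S hS hT
      obtain ⟨u, w, huw, rfl⟩ := YG_iff.1 hS
      have h1 := h u (List.mem_range.2 u.isLt)
      rw [List.all_eq_true] at h1
      have h2 := h1 w (List.mem_range.2 w.isLt)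
      rw [Bool.not_eq_true', ← Bool.not_eq_true] at h2
      exact h2 ((covB_pts G hlt u w).2 ⟨huw, hT⟩)
    · intro h u hu
      rw [List.all_eq_true]
      intro w hw
      rw [List.mem_range] at hu hw
      rw [Bool.not_eq_true', ← Bool.not_eq_true]
      intro h1
      have h2 := (covB_pts G hlt ⟨u, hu⟩ ⟨w, hw⟩).1 h1
      exact h _ (YG_iff.2 ⟨_, _, h2.1, rfl⟩) h2.2
  · constructor
    · rintro ⟨u, hu, h2⟩
      rw [List.any_eq_true] at h2
      obtain ⟨w, hw, h2⟩ := h2
      rw [List.mem_range] at hu hw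
      rw [Bool.and_eq_true, Bool.and_eq_true] at h2
      have h3 := (covB_pts G hlt ⟨u, hu⟩ ⟨w, hw⟩).1 h2.1
      have h4 := (covB_pts G hlt' ⟨u, hu⟩ ⟨w, hw⟩).1 h2.2.2
      have h5 := (resB_pts ⟨u, hu⟩ ⟨w, hw⟩).1 h2.2.1
      exact ⟨_, YG_iff.2 ⟨_, _, h3.1, rfl⟩, h3.2, h5, h4.2⟩
    · rintro ⟨S, hS, hT, he, hn⟩
      obtain ⟨u, w, huw, rfl⟩ := YG_iff.1 hS
      refine ⟨u, List.mem_range.2 u.isLt, ?_⟩
      rw [List.any_eq_true]
      refine ⟨w, List.mem_range.2 w.isLt, ?_⟩
      rw [Bool.and_eq_true, Bool.and_eq_true]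
      exact ⟨(covB_pts G hlt u w).2 ⟨huw, hT⟩, (resB_pts u w).2 he,
        (covB_pts G hlt' u w).2 ⟨huw, hn⟩⟩

/-- The graph, on numbered vertices. -/
noncomputable def TX (i n : ℕ) (G : SimpleGraph (Fin n)) : SimpleGraph (Fin (numX i n)) :=
  (XG i G).comap (trE (n * i) (i + 1))

/-- The numbering is an isomorphism. -/
noncomputable def TXiso (i n : ℕ) (G : SimpleGraph (Fin n)) : TX i n G ≃g XG i G :=
  SimpleGraph.Iso.comap (trE (n * i) (i + 1)) _

theorem adjX_iff {n i : ℕ} (G : SimpleGraph (Fin n)) (s t : Fin (numX i n)) :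
    adjX (adjMatrix G) i s t = true ↔ (TX i n G).Adj s t := by
  have hs : (s : ℕ) < (combs (n * i) (i + 1)).length := s.isLt
  have ht : (t : ℕ) < (combs (n * i) (i + 1)).length := t.isLt
  have hst : ((s : ℕ) = t) ↔ s = t := Fin.ext_iff.symm
  show _ ↔ tr (n * i) (i + 1) s ≠ tr (n * i) (i + 1) t ∧
    ∃ e, inc (YG G (vx n i)) e (tr (n * i) (i + 1) s) ∧
      inc (YG G (vx n i)) e (tr (n * i) (i + 1) t)
  unfold adjX
  rw [length_adjMatrix, Bool.and_eq_true, Bool.not_eq_true', decide_eq_false_iff_not, hst,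
    List.any_eq_true, List.getD_eq_getElem _ _ hs, List.getD_eq_getElem _ _ ht]
  refine and_congr (tr_bijective (n * i) (i + 1)).1.ne_iff.symm ?_
  constructor
  · rintro ⟨e, he, h⟩
    rw [Bool.and_eq_true] at h
    exact ⟨⟨pts (n * i) e, card_pts_combs he⟩, (incB_iff G (List.getElem_mem hs) he).1 h.1,
      (incB_iff G (List.getElem_mem ht) he).1 h.2⟩
  · rintro ⟨e, h1, h2⟩
    obtain ⟨l, hl, hle⟩ := exists_combs e
    have he : e = ⟨pts (n * i) l, card_pts_combs hl⟩ := Subtype.ext hle.symm
    subst he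
    refine ⟨l, hl, ?_⟩
    rw [Bool.and_eq_true]
    exact ⟨(incB_iff G (List.getElem_mem hs) hl).2 h1, (incB_iff G (List.getElem_mem ht) hl).2 h2⟩

theorem redX_adjMatrix {n : ℕ} (i : ℕ) (G : SimpleGraph (Fin n)) :
    redX i (adjMatrix G) = adjMatrix (TX i n G) := by
  unfold redX
  rw [length_adjMatrix]
  exact adjMatrix_of_test (TX i n G) (adjX (adjMatrix G) i) fun s t => adjX_iff G s t

/-! ### The reduction -/

/-- Iterated cones. -/
def conesM (M : Mat) : ℕ → Mat
  | 0 => M
  | c + 1 => coneM (conesM M c)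

theorem conesM_adjMatrix {n : ℕ} (G : SimpleGraph (Fin n)) (c : ℕ) :
    conesM (adjMatrix G) c = adjMatrix (cones G c) := by
  induction c with
  | zero => rfl
  | succ c ih =>
    rw [conesM, ih, coneM_adjMatrix]
    rfl

/-- The reduction on matrices. -/
def redJ (i : ℕ) (M : Mat) : Mat := redX i (conesM M (i + 3))

/-- The reduction on graphs. -/
noncomputable def TJ (i n : ℕ) (G : SimpleGraph (Fin n)) :
    SimpleGraph (Fin (numX i (n + (i + 3)))) := TX i _ (cones G (i + 3))

theorem redJ_adjMatrix (i n : ℕ) (G : SimpleGraph (Fin n)) :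
    redJ i (adjMatrix G) = adjMatrix (TJ i n G) := by
  unfold redJ TJ
  rw [conesM_adjMatrix, redX_adjMatrix]

theorem TJ_iff {i : ℕ} (hi : 2 ≤ i) (n n' : ℕ) (G : SimpleGraph (Fin n))
    (H : SimpleGraph (Fin n')) : Nonempty (TJ i n G ≃g TJ i n' H) ↔ Nonempty (G ≃g H) := by
  rw [← XG_iff hi G H]
  constructor
  · rintro ⟨φ⟩
    exact ⟨((TXiso _ _ _).symm.trans φ).trans (TXiso _ _ _)⟩
  · rintro ⟨φ⟩
    exact ⟨((TXiso _ _ _).trans φ).trans (TXiso _ _ _).symm⟩

/-! ### Polynomial time -/

theorem poly_conesM (c : ℕ) : Poly fun M => conesM M c := by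
  induction c with
  | zero => exact Poly.id
  | succ c ih => exact poly_coneM.comp ih

theorem poly_combs {α : Type} [TEnc α] {m : α → ℕ} (hm : UPoly m) (k : ℕ) :
    Poly (fun a => combs (m a) k) := by
  induction k with
  | zero => exact Poly.const _
  | succ k ih =>
    refine Poly.flatMap (l := fun a => combs (m a) k) (F := fun a l =>
      (List.range (m a)).flatMap fun x =>
        bif l.all (fun y => decide (x < y)) then [x :: l] else []) ih ?_
    refine Poly.flatMap (l := fun p : α × List ℕ => List.range (m p.1)) (F := fun p x =>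
      bif p.2.all (fun y => decide (x < y)) then [x :: p.2] else [])
      (hm.range.comp (Poly.fst Poly.id)) ?_
    fun_prop

theorem poly_covB (i : ℕ) : Poly (fun p : Mat × List ℕ × ℕ × ℕ => covB p.1 i p.2.1 p.2.2.1 p.2.2.2) := by
  unfold covB
  have h1 : Poly (fun p : Mat × List ℕ × ℕ × ℕ => ent p.1 p.2.2.1 p.2.2.2) :=
    poly_ent.comp (f := fun p : Mat × List ℕ × ℕ × ℕ => (p.1, p.2.2.1, p.2.2.2)) (by fun_prop)
  refine h1.and ?_
  refine Poly.all (l := fun p : Mat × List ℕ × ℕ × ℕ => p.2.1)
    (p := fun p q => decide (q / i = p.2.2.1) || decide (q / i = p.2.2.2))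
    (by fun_prop) ?_
  fun_prop

theorem upoly_len_mul (i : ℕ) : UPoly (fun M : Mat => M.length * i) := upoly_len.mul (UPoly.const i)

theorem poly_resB (i : ℕ) : Poly (fun p : Mat × (List ℕ × List ℕ) × ℕ × ℕ =>
    resB (p.1.length * i) i p.2.1.1 p.2.1.2 p.2.2.1 p.2.2.2) := by
  unfold resB
  refine Poly.all (l := fun p : Mat × (List ℕ × List ℕ) × ℕ × ℕ => List.range (p.1.length * i))
    (p := fun p q => (!(decide (q / i = p.2.2.1) || decide (q / i = p.2.2.2))) ||
      (decide (q ∈ p.2.1.1) || decide (q ∈ p.2.1.2)))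
    ((upoly_len_mul i).range.comp (Poly.fst Poly.id)) ?_
  fun_prop

theorem poly_incB (i : ℕ) : Poly (fun p : Mat × List ℕ × List ℕ => incB p.1 i p.2.1 p.2.2) := by
  unfold incB
  have hr : Poly (fun p : Mat × List ℕ × List ℕ => List.range p.1.length) :=
    upoly_len.range.comp (Poly.fst Poly.id)
  have hr' : Poly (fun q : (Mat × List ℕ × List ℕ) × ℕ => List.range q.1.1.length) :=
    hr.comp (Poly.fst Poly.id)
  refine Poly.or (Poly.and (by fun_prop) ?_) ?_
  · refine Poly.all (l := fun p : Mat × List ℕ × List ℕ => List.range p.1.length)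
      (p := fun p u => (List.range p.1.length).all fun w => !covB p.1 i p.2.1 u w) hr ?_
    refine Poly.all (l := fun q : (Mat × List ℕ × List ℕ) × ℕ => List.range q.1.1.length)
      (p := fun q w => !covB q.1.1 i q.1.2.1 q.2 w) hr' ?_
    exact ((poly_covB i).comp (f := fun q : ((Mat × List ℕ × List ℕ) × ℕ) × ℕ =>
      (q.1.1.1, q.1.1.2.1, q.1.2, q.2)) (by fun_prop)).not
  · refine Poly.any (l := fun p : Mat × List ℕ × List ℕ => List.range p.1.length)
      (p := fun p u => (List.range p.1.length).any fun w => covB p.1 i p.2.1 u w &&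
        (resB (p.1.length * i) i p.2.1 p.2.2 u w && covB p.1 i p.2.2 u w)) hr ?_
    refine Poly.any (l := fun q : (Mat × List ℕ × List ℕ) × ℕ => List.range q.1.1.length)
      (p := fun q w => covB q.1.1 i q.1.2.1 q.2 w &&
        (resB (q.1.1.length * i) i q.1.2.1 q.1.2.2 q.2 w && covB q.1.1 i q.1.2.2 q.2 w)) hr' ?_
    refine Poly.and ?_ (Poly.and ?_ ?_)
    · exact (poly_covB i).comp (f := fun q : ((Mat × List ℕ × List ℕ) × ℕ) × ℕ =>
        (q.1.1.1, q.1.1.2.1, q.1.2, q.2)) (by fun_prop)
    · exact (poly_resB i).comp (f := fun q : ((Mat × List ℕ × List ℕ) × ℕ) × ℕ =>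
        (q.1.1.1, (q.1.1.2.1, q.1.1.2.2), q.1.2, q.2)) (by fun_prop)
    · exact (poly_covB i).comp (f := fun q : ((Mat × List ℕ × List ℕ) × ℕ) × ℕ =>
        (q.1.1.1, q.1.1.2.2, q.1.2, q.2)) (by fun_prop)

theorem poly_adjX (i : ℕ) : Poly (fun p : Mat × ℕ × ℕ => adjX p.1 i p.2.1 p.2.2) := by
  unfold adjX
  have h1 : Poly (fun p : Mat × ℕ × ℕ => decide (p.2.1 = p.2.2)) := by fun_prop
  have ht : ∀ k, Poly (fun p : Mat × ℕ × ℕ => combs (p.1.length * i) k) := fun k =>
    (poly_combs (m := fun M : Mat => M.length * i) (upoly_len_mul i) k).comp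
      (f := fun p : Mat × ℕ × ℕ => p.1) (Poly.fst Poly.id)
  refine h1.not.and ?_
  refine Poly.any (l := fun p : Mat × ℕ × ℕ => combs (p.1.length * i) i)
    (p := fun p e => incB p.1 i ((combs (p.1.length * i) (i + 1)).getD p.2.1 []) e &&
      incB p.1 i ((combs (p.1.length * i) (i + 1)).getD p.2.2 []) e) (ht i) ?_
  have p1 : Poly (fun q : (Mat × ℕ × ℕ) × List ℕ => q.1) := Poly.fst Poly.id
  have e1 : Poly (fun q : (Mat × ℕ × ℕ) × List ℕ =>
      (combs (q.1.1.length * i) (i + 1)).getD q.1.2.1 []) :=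
    Poly.getD (d := fun _ => []) ((ht (i + 1)).comp p1) (by fun_prop) (Poly.const _)
  have e2 : Poly (fun q : (Mat × ℕ × ℕ) × List ℕ =>
      (combs (q.1.1.length * i) (i + 1)).getD q.1.2.2 []) :=
    Poly.getD (d := fun _ => []) ((ht (i + 1)).comp p1) (by fun_prop) (Poly.const _)
  have p2 : Poly (fun q : (Mat × ℕ × ℕ) × List ℕ => q.2) := by fun_prop
  have p3 : Poly (fun q : (Mat × ℕ × ℕ) × List ℕ => q.1.1) := by fun_prop
  refine Poly.and ?_ ?_
  · exact (poly_incB i).comp (f := fun q : (Mat × ℕ × ℕ) × List ℕ =>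
      (q.1.1, (combs (q.1.1.length * i) (i + 1)).getD q.1.2.1 [], q.2))
      (Poly.pair p3 (Poly.pair e1 p2))
  · exact (poly_incB i).comp (f := fun q : (Mat × ℕ × ℕ) × List ℕ =>
      (q.1.1, (combs (q.1.1.length * i) (i + 1)).getD q.1.2.2 [], q.2))
      (Poly.pair p3 (Poly.pair e2 p2))

theorem poly_redX (i : ℕ) : Poly (redX i) := by
  unfold redX
  have h1 : Poly (fun M : Mat => List.range (numX i M.length)) :=
    (UPoly.length (poly_combs (upoly_len_mul i) (i + 1))).range
  refine Poly.map (F := fun (M : Mat) s => (List.range (numX i M.length)).map fun t =>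
    adjX M i s t) h1 ?_
  refine Poly.map (l := fun p : Mat × ℕ => List.range (numX i p.1.length))
    (F := fun (p : Mat × ℕ) t => adjX p.1 i p.2 t) (h1.comp (Poly.fst Poly.id)) ?_
  exact (poly_adjX i).comp (f := fun p : (Mat × ℕ) × ℕ => (p.1.1, p.1.2, p.2)) (by fun_prop)

theorem poly_redJ (i : ℕ) : Poly (redJ i) := (poly_redX i).comp (poly_conesM (i + 3))

end Pool.Agent.NPC.JK677
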