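import Pool.Agent.H677.JK.Mats
import Pool.Agent.H677.JS.Eig

/-!
# The eigenvalues and the connectedness
-/

set_option autoImplicit false
set_option linter.unusedSectionVars false

namespace Pool.Agent.H677.JK

open Finset Matrix Pool.Agent.H677.JS

section abstract

variable {Ω B : Type} [Fintype Ω] [Fintype B] [DecidableEq Ω] [DecidableEq B]
  {A : Matrix B B ℝ} {C : Matrix Ω Ω ℝ} {N : Matrix Ω B ℝ}

/-- The eigenvalues of `Nᵀ N - a` from those of `N Nᵀ - b`. -/
theorem eig_step {a b : ℝ} (hB : Fintype.card Ω < Fintype.card B)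
    (h1 : Nᵀ * N = A + a • (1 : Matrix B B ℝ))
    (h2 : N * Nᵀ = C + b • (1 : Matrix Ω Ω ℝ))
    (h3 : ∀ κ : ℝ, (∃ g : Ω → ℝ, g ≠ 0 ∧ C *ᵥ g = κ • g) → κ + b ≠ 0) (θ : ℝ) :
    (∃ x : B → ℝ, x ≠ 0 ∧ A *ᵥ x = θ • x) ↔
      (θ = -a ∨ ∃ g : Ω → ℝ, g ≠ 0 ∧ C *ᵥ g = (θ + a - b) • g) := by
  have hA : A = Nᵀ * N - a • (1 : Matrix B B ℝ) := by
    rw [h1, add_sub_cancel_right]
  have hC : C = N * Nᵀ - b • (1 : Matrix Ω Ω ℝ) := by
    rw [h2, add_sub_cancel_right]
  constructor
  · rintro ⟨x, hx, hx'⟩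
    have e1 : Nᵀ *ᵥ (N *ᵥ x) = (θ + a) • x := by
      rw [Matrix.mulVec_mulVec, h1, Matrix.add_mulVec, hx', Matrix.smul_mulVec, Matrix.one_mulVec,
        add_smul]
    by_cases hy : N *ᵥ x = 0
    · left
      rw [hy, Matrix.mulVec_zero] at e1
      have := (smul_eq_zero.1 e1.symm).resolve_right hx
      linarith
    · right
      refine ⟨N *ᵥ x, hy, ?_⟩
      rw [hC, Matrix.sub_mulVec, ← Matrix.mulVec_mulVec, e1, Matrix.mulVec_smul,
        Matrix.smul_mulVec, Matrix.one_mulVec, ← sub_smul]
  · rintro (rfl | ⟨g, hg, hg'⟩)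
    · obtain ⟨x, hx, hN⟩ := exists_ker N hB
      refine ⟨x, hx, ?_⟩
      rw [hA, Matrix.sub_mulVec, ← Matrix.mulVec_mulVec, hN, Matrix.mulVec_zero,
        Matrix.smul_mulVec, Matrix.one_mulVec, zero_sub, neg_smul]
    · have e1 : N *ᵥ (Nᵀ *ᵥ g) = (θ + a) • g := by
        rw [Matrix.mulVec_mulVec, h2, Matrix.add_mulVec, hg', Matrix.smul_mulVec,
          Matrix.one_mulVec, ← add_smul]
        congr 1
        ring
      have hne : θ + a ≠ 0 := by
        have := h3 _ ⟨g, hg, hg'⟩
        intro h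
        apply this
        linarith
      refine ⟨Nᵀ *ᵥ g, ?_, ?_⟩
      · intro h
        rw [h, Matrix.mulVec_zero] at e1
        rcases smul_eq_zero.1 e1.symm with h' | h'
        · exact hne h'
        · exact hg h'
      · rw [hA, Matrix.sub_mulVec, ← Matrix.mulVec_mulVec, e1, Matrix.mulVec_smul,
          Matrix.smul_mulVec, Matrix.one_mulVec, ← sub_smul]
        congr 1
        ring

end abstract

/-- The eigenvalues of `J(m,i)`. -/
def spec (m : ℕ) : ℕ → Finset ℤ
  | 0 => {0}
  | i + 1 => insert (-((i : ℤ) + 1)) ((spec m i).image fun x => x + ((m : ℤ) - 2 * i - 1))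

theorem spec_ge {m : ℕ} : ∀ {i : ℕ}, 2 * i ≤ m → ∀ x ∈ spec m i, -(i : ℤ) ≤ x := by
  intro i
  induction i with
  | zero =>
    intro _ x hx
    rw [spec, mem_singleton] at hx
    subst hx
    simp
  | succ i ih =>
    intro h x hx
    rw [spec, mem_insert, mem_image] at hx
    rcases hx with rfl | ⟨y, hy, rfl⟩
    · push_cast
      exact le_refl _
    · have := ih (by omega) y hy
      push_cast
      omega

theorem card_spec {m : ℕ} : ∀ {i : ℕ}, 2 * i ≤ m → (spec m i).card = i + 1 := by
  intro i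
  induction i with
  | zero => exact fun _ => rfl
  | succ i ih =>
    intro h
    rw [spec, card_insert_of_notMem, card_image_of_injective, ih (by omega)]
    · exact fun x y hxy => by simpa using hxy
    · intro hx
      rw [mem_image] at hx
      obtain ⟨y, hy, hxy⟩ := hx
      have := spec_ge (by omega : 2 * i ≤ m) y hy
      omega

theorem choose_lt {m i : ℕ} (h : 2 * (i + 1) ≤ m) : m.choose i < m.choose (i + 1) := by
  have h1 := Nat.choose_succ_right_eq m i
  have h2 : 0 < m.choose i := Nat.choose_pos (by omega)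
  have h3 : m.choose i * (i + 2) ≤ m.choose i * (m - i) := Nat.mul_le_mul_left _ (by omega)
  by_contra hcon
  rw [not_lt] at hcon
  have h4 := Nat.mul_le_mul_right (i + 1) hcon
  nlinarith

variable {P : Type} [Fintype P] [DecidableEq P] {Y : Finset P → Prop} {i : ℕ}

/-- One step. -/
theorem isEigenvalue_step (hY : Sys i Y) (hm : 2 * (i + 1) ≤ Fintype.card P)
    (hjg : ∀ θ : ℝ, FE.IsEigenvalue (jg P i) θ ↔
      ∃ x ∈ spec (Fintype.card P) i, θ = (x : ℝ)) (θ : ℝ) :
    FE.IsEigenvalue (JS.col (inc (i := i) Y)) θ ↔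
      ∃ x ∈ spec (Fintype.card P) (i + 1), θ = (x : ℝ) := by
  classical
  have hB : Fintype.card (Sb P i) < Fintype.card (Sb P (i + 1)) := by
    rw [Fintype.card_finset_len, Fintype.card_finset_len]
    exact choose_lt hm
  have hmr : (2 * ((i : ℝ) + 1)) ≤ (Fintype.card P : ℝ) := by exact_mod_cast hm
  have hgr : ∀ x ∈ spec (Fintype.card P) i, -(i : ℝ) ≤ (x : ℝ) := by
    intro x hx
    have := spec_ge (by omega : 2 * i ≤ Fintype.card P) x hx
    exact_mod_cast this
  refine (eig_step hB (NtN hY) (NNt hY) (fun κ hκ => ?_) θ).trans ?_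
  · obtain ⟨x, hx, rfl⟩ := (hjg κ).1 hκ
    have := hgr x hx
    linarith
  · rw [spec]
    simp only [mem_insert, mem_image, exists_eq_or_imp]
    refine or_congr ?_ ?_
    · push_cast
      exact Iff.rfl
    · refine (hjg _).trans ?_
      constructor
      · rintro ⟨x, hx, h⟩
        refine ⟨_, ⟨x, hx, rfl⟩, ?_⟩
        push_cast
        linarith
      · rintro ⟨_, ⟨x, hx, rfl⟩, h⟩
        refine ⟨x, hx, ?_⟩
        rw [h]
        push_cast
        ring

/-- The eigenvalues of the Johnson graph. -/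
theorem isEigenvalue_jg : ∀ (i : ℕ), 2 * i ≤ Fintype.card P → ∀ θ : ℝ,
    FE.IsEigenvalue (jg P i) θ ↔ ∃ x ∈ spec (Fintype.card P) i, θ = (x : ℝ) := by
  intro i
  induction i with
  | zero =>
    intro _ θ
    have hne : ∀ e f : Sb P 0, e = f := by
      intro e f
      apply Subtype.ext
      rw [card_eq_zero.1 e.2, card_eq_zero.1 f.2]
    have hadj : ∀ e f : Sb P 0, ¬ (jg P 0).Adj e f := fun e f h => h.ne (hne e f)
    have key : ∀ x : Sb P 0 → ℝ, ∀ (_ : DecidableRel (jg P 0).Adj),
        (jg P 0).adjMatrix ℝ *ᵥ x = 0 := by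
      intro x _
      funext e
      rw [SimpleGraph.adjMatrix_mulVec_apply]
      refine Finset.sum_eq_zero fun f hf => ?_
      rw [SimpleGraph.mem_neighborFinset] at hf
      exact absurd hf (hadj e f)
    simp only [spec, mem_singleton, exists_eq_left, Int.cast_zero]
    constructor
    · rintro ⟨x, hx, h⟩
      rw [key] at h
      exact (smul_eq_zero.1 h.symm).resolve_right hx
    · rintro rfl
      refine ⟨fun _ => 1, ?_, ?_⟩
      · intro h
        exact one_ne_zero (congrFun h ⟨∅, rfl⟩)
      · rw [key, zero_smul]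
  | succ i ih =>
    intro h θ
    rw [jg_eq]
    exact isEigenvalue_step (sys_empty i) h (ih (by omega)) θ

/-- **The eigenvalues.** -/
theorem isEigenvalue_iff (hY : Sys i Y) (hm : 2 * (i + 1) ≤ Fintype.card P) (θ : ℝ) :
    FE.IsEigenvalue (JS.col (inc (i := i) Y)) θ ↔
      ∃ x ∈ spec (Fintype.card P) (i + 1), θ = (x : ℝ) :=
  isEigenvalue_step hY hm (isEigenvalue_jg i (by omega)) θ

/-- The graph is connected. -/
theorem connected (hY : Sys i Y) (h3 : i + 1 ≤ Fintype.card P) :
    (JS.col (inc (i := i) Y)).Connected := by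
  classical
  have line : ∀ (e : Sb P i) (T T' : Sb P (i + 1)), inc Y e T → inc Y e T' →
      (JS.col (inc (i := i) Y)).Reachable T T' := by
    intro e T T' h h'
    by_cases hne : T = T'
    · rw [hne]
    · exact SimpleGraph.Adj.reachable (G := JS.col (inc (i := i) Y)) ⟨hne, e, h, h'⟩
  have path : ∀ (n : ℕ) (e f : Sb P i) (T T' : Sb P (i + 1)), (e.1 \ f.1).card = n →
      inc Y e T → inc Y f T' → (JS.col (inc (i := i) Y)).Reachable T T' := by
    intro n
    induction n with
    | zero =>
      intro e f T T' h0 h h'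
      rw [card_eq_zero, sdiff_eq_empty_iff_subset] at h0
      have : e = f := Subtype.ext (eq_of_subset_of_card_le h0 (by rw [e.2, f.2]))
      subst this
      exact line e T T' h h'
    | succ n ih =>
      intro e f T T' h0 h h'
      have h1 := card_sdiff_add_card_inter e.1 f.1
      have h2 := card_sdiff_add_card_inter f.1 e.1
      rw [e.2] at h1
      rw [f.2, Finset.inter_comm] at h2
      obtain ⟨x, hx⟩ : (e.1 \ f.1).Nonempty := by
        rw [← Finset.card_pos]
        omega
      obtain ⟨y, hy⟩ : (f.1 \ e.1).Nonempty := by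
        rw [← Finset.card_pos]
        omega
      rw [mem_sdiff] at hx hy
      have hcx : (e.1.erase x).card + 1 = i := by
        rw [card_erase_of_mem hx.1, e.2]
        have : 0 < e.1.card := Finset.card_pos.2 ⟨_, hx.1⟩
        rw [e.2] at this
        omega
      have hyx : y ∉ e.1.erase x := fun h => hy.2 (mem_erase.1 h).2
      let e' : Sb P i := ⟨insert y (e.1.erase x), by rw [card_insert_of_notMem hyx]; exact hcx⟩
      have hee : (jg P i).Adj e e' := by
        have hne : e ≠ e' := by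
          intro hee
          have : y ∈ e.1 := by
            rw [hee]
            exact mem_insert_self _ _
          exact hy.2 this
        exact (adj_of_common hne hcx (erase_subset _ _) (subset_insert _ _)).1
      obtain ⟨T'', h3, h4⟩ := inc_exists hY hee
      refine (line e T T'' h h3).trans (ih e' f T'' T' ?_ h4 h')
      have h5 : e'.1 \ f.1 = (e.1 \ f.1).erase x := by
        ext z
        show z ∈ insert y (e.1.erase x) \ f.1 ↔ _
        rw [mem_sdiff, mem_insert, mem_erase, mem_erase, mem_sdiff]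
        constructor
        · rintro ⟨rfl | h5, h6⟩
          · exact absurd hy.1 h6
          · exact ⟨h5.1, h5.2, h6⟩
        · rintro ⟨h5, h6, h7⟩
          exact ⟨Or.inr ⟨h5, h6⟩, h7⟩
      rw [h5, card_erase_of_mem (mem_sdiff.2 hx), h0]
      omega
  have some_line : ∀ T : Sb P (i + 1), ∃ e, inc Y e T := by
    intro T
    obtain ⟨e, he⟩ : (els (inc Y) T).Nonempty := by
      rw [← Finset.card_pos, card_els hY]
      omega
    exact ⟨e, mem_els.1 he⟩
  obtain ⟨T₀, _, hT₀⟩ := Finset.exists_subset_card_eq (s := (univ : Finset P)) (n := i + 1)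
    (by rw [Finset.card_univ]; exact h3)
  have : Nonempty (Sb P (i + 1)) := ⟨⟨T₀, hT₀⟩⟩
  refine SimpleGraph.Connected.mk fun T T' => ?_
  obtain ⟨e, he⟩ := some_line T
  obtain ⟨f, hf⟩ := some_line T'
  exact path _ e f T T' rfl he hf

end Pool.Agent.H677.JK
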