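import Pool.Agent.H677.JK.Recover
import Pool.Agent.H677.JK.Eig
import Pool.Agent.H677.JS.Double

/-!
# The graph of a graph
-/

set_option autoImplicit false
set_option linter.unusedSectionVars false

namespace Pool.Agent.H677.JK

open Finset Pool.Agent.H677.JS

section

variable {V P : Type} [Fintype V] [DecidableEq V] [Fintype P] [DecidableEq P]

/-- Every vertex has exactly `i` points. -/
def Fibs (i : ℕ) (pr : P → V) : Prop := ∀ v, (fib pr v).card = i

variable {G : SimpleGraph V} {pr : P → V} {i : ℕ}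

theorem Fibs.exists_pt (h : Fibs i pr) (hi : 0 < i) (v : V) : ∃ p, pr p = v := by
  have h1 : 0 < (fib pr v).card := by rw [h v]; exact hi
  obtain ⟨p, hp⟩ := Finset.card_pos.1 h1
  exact ⟨p, mem_fib.1 hp⟩

theorem sys_YG (h2 : Fibs i pr) : Sys i (YG G pr) where
  size := by
    intro S hS
    obtain ⟨u, w, h, rfl⟩ := YG_iff.1 hS
    rw [card_union_of_disjoint, h2 u, h2 w, two_mul]
    rw [Finset.disjoint_left]
    intro p h1 h3
    rw [mem_fib] at h1 h3
    exact h.ne (h1.symm.trans h3)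
  meet := by
    rintro S S' ⟨u, w, h, hS⟩ ⟨u', w', h', hS'⟩ h3
    have key : ∀ (S S' : Finset P) (u w u' w' : V), (∀ p, p ∈ S ↔ pr p = u ∨ pr p = w) →
        (∀ p, p ∈ S' ↔ pr p = u' ∨ pr p = w') → i + 1 ≤ (S ∩ S').card → u = u' ∨ u = w' := by
      intro S S' u w u' w' hS hS' h3
      by_contra hcon
      rw [not_or] at hcon
      have h4 : S ∩ S' ⊆ fib pr w := by
        intro p hp
        rw [mem_inter, hS, hS'] at hp
        rw [mem_fib]
        rcases hp.1 with h | h
        · rcases hp.2 with h' | h'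
          · exact absurd (h.symm.trans h') hcon.1
          · exact absurd (h.symm.trans h') hcon.2
        · exact h
      have h5 := card_le_card h4
      have h6 := h2 w
      omega
    have k1 := key S S' u w u' w' hS hS' h3
    have k2 := key S S' w u u' w' (fun p => (hS p).trans or_comm) hS' h3
    have k3 := h.ne
    ext p
    rw [hS, hS']
    rcases k1 with rfl | rfl
    · rcases k2 with rfl | rfl
      · exact absurd rfl k3
      · exact Iff.rfl
    · rcases k2 with rfl | rfl
      · exact or_comm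
      · exact absurd rfl k3

end

section

variable {V V' P P' : Type} [Fintype V] [DecidableEq V] [Fintype P] [DecidableEq P]
  [Fintype V'] [DecidableEq V'] [Fintype P'] [DecidableEq P']
  {G : SimpleGraph V} {pr : P → V} {G' : SimpleGraph V'} {pr' : P' → V'} {i : ℕ}

/-- The points of a vertex with at least two neighbours are mapped to points of the same vertex. -/
theorem same_vertex (hs : ∀ v, ∃ p, pr p = v) (π : P ≃ P')
    (hπ : ∀ S : Finset P, YG G' pr' (S.map π.toEmbedding) ↔ YG G pr S)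
    (hdeg : ∀ v, ∃ w₁ w₂, w₁ ≠ w₂ ∧ G.Adj v w₁ ∧ G.Adj v w₂) {p q : P} (hpq : pr p = pr q) :
    pr' (π p) = pr' (π q) := by
  by_contra hne
  obtain ⟨w₁, w₂, hw, h1, h1'⟩ := hdeg (pr p)
  have key : ∀ w, G.Adj (pr p) w → ∀ y, y ∈ (fib pr (pr p) ∪ fib pr w).map π.toEmbedding ↔
      pr' y = pr' (π p) ∨ pr' y = pr' (π q) := by
    intro w hw
    obtain ⟨a, b, _, hab⟩ := (hπ _).2 (YG_iff.2 ⟨pr p, w, hw, rfl⟩)
    have e1 : pr' (π p) = a ∨ pr' (π p) = b := by
      rw [← hab, mem_map_equiv, Equiv.symm_apply_apply, mem_union, mem_fib]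
      exact Or.inl rfl
    have e2 : pr' (π q) = a ∨ pr' (π q) = b := by
      rw [← hab, mem_map_equiv, Equiv.symm_apply_apply, mem_union, mem_fib]
      exact Or.inl hpq.symm
    intro y
    rw [hab]
    rcases e1 with rfl | rfl
    · rcases e2 with h | rfl
      · exact absurd h.symm hne
      · exact Iff.rfl
    · rcases e2 with rfl | h
      · exact or_comm
      · exact absurd h.symm hne
  obtain ⟨r, hr⟩ := hs w₁
  have h3 : π r ∈ (fib pr (pr p) ∪ fib pr w₁).map π.toEmbedding := by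
    rw [mem_map_equiv, Equiv.symm_apply_apply, mem_union, mem_fib, mem_fib]
    exact Or.inr hr
  rw [key w₁ h1, ← key w₂ h1', mem_map_equiv, Equiv.symm_apply_apply, mem_union, mem_fib,
    mem_fib, hr] at h3
  rcases h3 with h3 | h3
  · exact h1.ne h3.symm
  · exact hw h3

/-- **Recovering the graph.** -/
theorem recover_graph (hs : ∀ v, ∃ p, pr p = v) (hs' : ∀ v, ∃ p, pr' p = v) (π : P ≃ P')
    (hπ : ∀ S : Finset P, YG G' pr' (S.map π.toEmbedding) ↔ YG G pr S)
    (hdeg : ∀ v, ∃ w₁ w₂, w₁ ≠ w₂ ∧ G.Adj v w₁ ∧ G.Adj v w₂)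
    (hdeg' : ∀ v, ∃ w₁ w₂, w₁ ≠ w₂ ∧ G'.Adj v w₁ ∧ G'.Adj v w₂) : Nonempty (G ≃g G') := by
  have hπ' : ∀ S : Finset P', YG G pr (S.map π.symm.toEmbedding) ↔ YG G' pr' S := by
    intro S
    rw [← hπ, Finset.map_map]
    have h4 : π.symm.toEmbedding.trans π.toEmbedding = Function.Embedding.refl P' := by
      ext x
      exact π.apply_symm_apply x
    rw [h4, Finset.map_refl]
  have sv := fun {p q : P} (h : pr p = pr q) => same_vertex hs π hπ hdeg h
  have sv' := fun {p q : P'} (h : pr' p = pr' q) => same_vertex hs' π.symm hπ' hdeg' h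
  have hs2 := hs
  have hs2' := hs'
  choose s hs0 using hs
  choose s' hs0' using hs'
  let σ : V ≃ V' :=
    { toFun := fun v => pr' (π (s v))
      invFun := fun v => pr (π.symm (s' v))
      left_inv := fun v => by
        have h1 : pr (π.symm (s' (pr' (π (s v))))) = pr (π.symm (π (s v))) := sv' (hs0' _)
        show pr (π.symm (s' (pr' (π (s v))))) = v
        rw [h1, Equiv.symm_apply_apply, hs0]
      right_inv := fun v => by
        have h1 : pr' (π (s (pr (π.symm (s' v))))) = pr' (π (π.symm (s' v))) := sv (hs0 _)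
        show pr' (π (s (pr (π.symm (s' v))))) = v
        rw [h1, Equiv.apply_symm_apply, hs0'] }
  have hσ : ∀ p, pr' (π p) = σ (pr p) := fun p => sv (hs0 (pr p)).symm
  refine ⟨⟨σ, ?_⟩⟩
  intro u w
  have h3 : (fib pr u ∪ fib pr w).map π.toEmbedding = fib pr' (σ u) ∪ fib pr' (σ w) := by
    ext y
    rw [mem_map_equiv, mem_union, mem_union, mem_fib, mem_fib, mem_fib, mem_fib]
    have := hσ (π.symm y)
    rw [Equiv.apply_symm_apply] at this
    rw [this, σ.injective.eq_iff, σ.injective.eq_iff]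
  have key : ∀ {V P : Type} [Fintype V] [DecidableEq V] [Fintype P] [DecidableEq P]
      {G : SimpleGraph V} {pr : P → V} (_ : ∀ v, ∃ p, pr p = v) (u w : V), u ≠ w →
      (YG G pr (fib pr u ∪ fib pr w) ↔ G.Adj u w) := by
    intro V P _ _ _ _ G pr hs u w huw
    constructor
    · rintro ⟨a, b, hab, h⟩
      obtain ⟨p, hp⟩ := hs u
      obtain ⟨q, hq⟩ := hs w
      have h4 := (h p).1 (mem_union_left _ (mem_fib.2 hp))
      have h5 := (h q).1 (mem_union_right _ (mem_fib.2 hq))
      rw [hp] at h4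
      rw [hq] at h5
      rcases h4 with rfl | rfl
      · rcases h5 with rfl | rfl
        · exact absurd rfl huw
        · exact hab
      · rcases h5 with rfl | rfl
        · exact hab.symm
        · exact absurd rfl huw
    · exact fun h => YG_iff.2 ⟨u, w, h, rfl⟩
  by_cases huw : u = w
  · subst huw
    exact iff_of_false G'.irrefl G.irrefl
  · show G'.Adj (σ u) (σ w) ↔ G.Adj u w
    rw [← key (G := G) (pr := pr) hs2 u w huw,
      ← key (G := G') (pr := pr') hs2' (σ u) (σ w) (σ.injective.ne huw), ← hπ, h3]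

theorem exists_points {pr : P → V} {pr' : P' → V'} (h2 : Fibs i pr) (h2' : Fibs i pr')
    (φ : V ≃ V') : ∃ π : P ≃ P', ∀ p, pr' (π p) = φ (pr p) := by
  have hF : ∀ v, Nonempty ({p // pr p = v} ≃ {p' // pr' p' = φ v}) := by
    intro v
    refine ⟨Fintype.equivOfCardEq ?_⟩
    rw [Fintype.card_subtype, Fintype.card_subtype]
    exact (h2 v).trans (h2' (φ v)).symm
  let F : ∀ v, {p // pr p = v} ≃ {p' // pr' p' = φ v} := fun v => Classical.choice (hF v)
  refine ⟨(Equiv.sigmaFiberEquiv pr).symm.trans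
    ((Equiv.sigmaCongr φ F).trans (Equiv.sigmaFiberEquiv pr')), fun p => ?_⟩
  exact (F (pr p) ⟨p, rfl⟩).2

end

/-! ### The points -/

/-- The vertex of a point. -/
def vx (n i : ℕ) (p : Fin (n * i)) : Fin n := p.divNat

theorem fibs_vx (n i : ℕ) : Fibs i (vx n i) := by
  intro v
  have h1 : fib (vx n i) v = (univ : Finset (Fin i)).map
      ⟨fun j => finProdFinEquiv (v, j), fun j j' h => by
        have := finProdFinEquiv.injective h
        exact (Prod.mk.inj this).2⟩ := by
    ext p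
    rw [mem_fib, mem_map]
    constructor
    · intro h
      refine ⟨p.modNat, mem_univ _, ?_⟩
      show finProdFinEquiv (v, p.modNat) = p
      rw [← h]
      exact finProdFinEquiv.apply_symm_apply p
    · rintro ⟨j, _, rfl⟩
      show (finProdFinEquiv.symm (finProdFinEquiv (v, j))).1 = v
      rw [Equiv.symm_apply_apply]
  rw [h1, card_map, Finset.card_univ, Fintype.card_fin]

/-- The graph on the `(i + 1)`-subsets of the points. -/
def XG (i : ℕ) {n : ℕ} (G : SimpleGraph (Fin n)) : SimpleGraph (Sb (Fin (n * i)) (i + 1)) :=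
  JS.col (inc (i := i) (YG G (vx n i)))

theorem sys (i : ℕ) {n : ℕ} (G : SimpleGraph (Fin n)) : Sys i (YG G (vx n i)) :=
  sys_YG (fibs_vx n i)

theorem XG_lift {i n : ℕ} {G H : SimpleGraph (Fin n)} (φ : G ≃g H) :
    Nonempty (XG i G ≃g XG i H) := by
  obtain ⟨π, hπ⟩ := exists_points (fibs_vx n i) (fibs_vx n i) φ.toEquiv
  exact lift_sys π fun S => map_YG π φ hπ S

theorem XG_recover {i n n' : ℕ} (hi : 2 ≤ i) {G : SimpleGraph (Fin n)} {H : SimpleGraph (Fin n')}
    (hn : i + 3 ≤ n) (hn' : i + 3 ≤ n') (hG : ∀ v, ∃ w₁ w₂, w₁ ≠ w₂ ∧ G.Adj v w₁ ∧ G.Adj v w₂)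
    (hH : ∀ v, ∃ w₁ w₂, w₁ ≠ w₂ ∧ H.Adj v w₁ ∧ H.Adj v w₂) (φ : XG i G ≃g XG i H) :
    Nonempty (G ≃g H) := by
  have key : ∀ n, i + 3 ≤ n → (i + 1) * i + 2 + i ≤ Fintype.card (Fin (n * i)) := by
    intro n hn
    rw [Fintype.card_fin]
    have h1 := Nat.mul_le_mul_right i hn
    have h2 : (i + 3) * i = (i + 1) * i + i + i := by ring
    omega
  obtain ⟨π, hπ⟩ := recover_sys hi (sys i G) (sys i H) (key n hn) (key n' hn') φ
  exact recover_graph ((fibs_vx n i).exists_pt (by omega)) ((fibs_vx n' i).exists_pt (by omega))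
    π hπ hG hH

/-! ### Cones -/

/-- Add `c` vertices that are adjacent to all others. -/
def cones {n : ℕ} (G : SimpleGraph (Fin n)) : (c : ℕ) → SimpleGraph (Fin (n + c))
  | 0 => G
  | c + 1 => cone (cones G c)

theorem cones_lift {n : ℕ} {G H : SimpleGraph (Fin n)} (φ : G ≃g H) (c : ℕ) :
    Nonempty (cones G c ≃g cones H c) := by
  induction c with
  | zero => exact ⟨φ⟩
  | succ c ih =>
    obtain ⟨ψ⟩ := ih
    exact cone_lift ψ

theorem cones_cancel {n n' : ℕ} {G : SimpleGraph (Fin n)} {H : SimpleGraph (Fin n')} (c : ℕ)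
    (h : Nonempty (cones G c ≃g cones H c)) : Nonempty (G ≃g H) := by
  induction c with
  | zero => exact h
  | succ c ih =>
    obtain ⟨φ⟩ := h
    exact ih (cone_cancel φ)

theorem cones_dom {n : ℕ} (G : SimpleGraph (Fin n)) : ∀ (c : ℕ) (u w : Fin (n + c)),
    n ≤ (u : ℕ) → u ≠ w → (cones G c).Adj u w := by
  intro c
  induction c with
  | zero => exact fun u _ h _ => absurd u.isLt (not_lt.2 h)
  | succ c ih =>
    intro u w hu huw
    exact ⟨huw, fun h1 h2 => ih ⟨u, h1⟩ ⟨w, h2⟩ hu
      fun h3 => huw (Fin.ext (congrArg (fun x : Fin (n + c) => (x : ℕ)) h3))⟩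

theorem cones_deg {n c : ℕ} (hc : 3 ≤ c) (G : SimpleGraph (Fin n)) (v : Fin (n + c)) :
    ∃ w₁ w₂, w₁ ≠ w₂ ∧ (cones G c).Adj v w₁ ∧ (cones G c).Adj v w₂ := by
  have key : ∀ a b : ℕ, n ≤ a → n ≤ b → a < n + c → b < n + c →
      a ≠ b → (v : ℕ) ≠ a → (v : ℕ) ≠ b →
      ∃ w₁ w₂, w₁ ≠ w₂ ∧ (cones G c).Adj v w₁ ∧ (cones G c).Adj v w₂ := by
    intro a b ha hb ha' hb' hab h1 h2
    refine ⟨⟨a, ha'⟩, ⟨b, hb'⟩, ?_, ?_, ?_⟩
    · intro h
      exact hab (congrArg (fun x : Fin (n + c) => (x : ℕ)) h)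
    · refine (cones_dom G _ _ _ ha ?_).symm
      intro h
      exact h1 (congrArg (fun x : Fin (n + c) => (x : ℕ)) h).symm
    · refine (cones_dom G _ _ _ hb ?_).symm
      intro h
      exact h2 (congrArg (fun x : Fin (n + c) => (x : ℕ)) h).symm
  by_cases h1 : (v : ℕ) = n
  · exact key (n + 1) (n + 2) (by omega) (by omega) (by omega) (by omega) (by omega) (by omega)
      (by omega)
  · by_cases h2 : (v : ℕ) = n + 1
    · exact key n (n + 2) (by omega) (by omega) (by omega) (by omega) (by omega) (by omega)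
        (by omega)
    · exact key n (n + 1) (by omega) (by omega) (by omega) (by omega) (by omega) (by omega)
        (by omega)

theorem XG_iff {i n n' : ℕ} (hi : 2 ≤ i) (G : SimpleGraph (Fin n)) (H : SimpleGraph (Fin n')) :
    Nonempty (XG i (cones G (i + 3)) ≃g XG i (cones H (i + 3))) ↔ Nonempty (G ≃g H) := by
  constructor
  · rintro ⟨φ⟩
    exact cones_cancel (i + 3) (XG_recover hi (by omega) (by omega) (cones_deg (by omega) G)
      (cones_deg (by omega) H) φ)
  · rintro ⟨φ⟩
    have hnn : n = n' := by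
      have := Fintype.card_congr φ.toEquiv
      simpa using this
    subst hnn
    obtain ⟨ψ⟩ := cones_lift φ (i + 3)
    exact XG_lift ψ

/-! ### The Johnson graph -/

/-- The Johnson graph `J(m,k)`: the `k`-subsets of an `m`-set, adjacent if they have exactly `k - 1`
common elements. -/
def johnson (m k : ℕ) : SimpleGraph {T : Finset (Fin m) // T.card = k} where
  Adj S T := (S.1 ∩ T.1).card + 1 = k
  symm := ⟨fun S T h => by rw [Finset.inter_comm]; exact h⟩
  loopless := ⟨fun S h => by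
    rw [Finset.inter_self] at h
    have := S.2
    omega⟩

theorem johnson_eq (m i : ℕ) : johnson m (i + 1) =
    JS.col (inc (i := i) (fun _ : Finset (Fin m) => False)) :=
  Eq.trans (by ext S T; exact Iff.rfl) (jg_eq (Fin m) i)

open Classical in
/-- The graph is cospectral with the Johnson graph. -/
theorem XG_charpoly {i n : ℕ} (G : SimpleGraph (Fin n)) :
    ((XG i G).adjMatrix ℤ).charpoly = ((johnson (n * i) (i + 1)).adjMatrix ℤ).charpoly := by
  have h1 := charpoly_eq (sys i G) (sys_empty (P := Fin (n * i)) i)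
  have h2 := johnson_eq (n * i) i
  have h3 : ∀ K : SimpleGraph (Sb (Fin (n * i)) (i + 1)), johnson (n * i) (i + 1) = K →
      ((johnson (n * i) (i + 1)).adjMatrix ℤ).charpoly = (K.adjMatrix ℤ).charpoly := by
    rintro K rfl
    rfl
  rw [h3 _ h2, ← h1]
  rfl

end Pool.Agent.H677.JK
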