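import Pool.Agent.H677.JK.Switch
import Pool.Agent.H677.JS.Mats

/-!
# The incidence matrices
-/

set_option autoImplicit false
set_option linter.unusedSectionVars false

namespace Pool.Agent.H677.JK

open Finset Matrix Pool.Agent.H677.JS

variable {P : Type} [Fintype P] [DecidableEq P] (R : Type) [CommRing R] {i : ℕ}

open Classical in
/-- The incidence matrix of `i`-subsets and `(i + 1)`-subsets. -/
noncomputable def Nm (Y : Finset P → Prop) (i : ℕ) : Matrix (Sb P i) (Sb P (i + 1)) R :=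
  Matrix.of fun e T => if inc Y e T then 1 else 0

variable {R} {Y : Finset P → Prop}

theorem Nm_val (e : Sb P i) (T : Sb P (i + 1)) : (inc Y e T → Nm R Y i e T = 1) ∧
    (¬ inc Y e T → Nm R Y i e T = 0) :=
  ⟨fun h => if_pos h, fun h => if_neg h⟩

open Classical in
theorem NtN (hY : Sys i Y) : (Nm R Y i)ᵀ * Nm R Y i =
    (JS.col (inc (i := i) Y)).adjMatrix R +
      ((i : R) + 1) • (1 : Matrix (Sb P (i + 1)) (Sb P (i + 1)) R) := by
  ext T T'
  rw [Matrix.mul_apply, Matrix.add_apply, Matrix.smul_apply, SimpleGraph.adjMatrix_apply,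
    Matrix.one_apply]
  have h0 : ∑ e, (Nm R Y i)ᵀ T e * Nm R Y i e T' =
      ((univ.filter fun e => inc Y e T ∧ inc Y e T').card : R) :=
    sum_mul_ite _ (fun e => Nm_val e T) (fun e => Nm_val e T') fun e => by
      rw [mem_filter]
      exact ⟨fun h => h.2, fun h => ⟨mem_univ _, h⟩⟩
  rw [h0]
  by_cases h : T = T'
  · subst h
    have h1 : (univ.filter fun e => inc Y e T ∧ inc Y e T).card = i + 1 := by
      rw [← card_els hY T]
      refine congrArg card (Finset.ext fun e => ?_)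
      rw [mem_filter, mem_els]
      exact ⟨fun h => h.2.1, fun h => ⟨mem_univ _, h, h⟩⟩
    rw [h1, if_neg (JS.col (inc Y)).irrefl, if_pos rfl]
    simp
  · rw [if_neg h]
    by_cases ha : (JS.col (inc (i := i) Y)).Adj T T'
    · obtain ⟨_, e, h1, h2⟩ := id ha
      have h3 : (univ.filter fun e => inc Y e T ∧ inc Y e T').card = 1 := by
        rw [card_eq_one]
        refine ⟨e, ?_⟩
        ext f
        rw [mem_filter, mem_singleton]
        constructor
        · rintro ⟨_, h3, h4⟩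
          by_contra hne
          exact h (inc_unique hY f e hne T T' h3 h1 h4 h2)
        · rintro rfl
          exact ⟨mem_univ _, h1, h2⟩
      rw [h3, if_pos ha]
      simp
    · have h3 : (univ.filter fun e => inc Y e T ∧ inc Y e T').card = 0 := by
        rw [card_eq_zero]
        refine filter_eq_empty_iff.2 ?_
        rintro e _ ⟨h1, h2⟩
        exact ha ⟨h, e, h1, h2⟩
      rw [h3, if_neg ha]
      simp

open Classical in
theorem NNt (hY : Sys i Y) : Nm R Y i * (Nm R Y i)ᵀ =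
    (jg P i).adjMatrix R + ((Fintype.card P : R) - i) • (1 : Matrix (Sb P i) (Sb P i) R) := by
  ext e f
  rw [Matrix.add_apply, Matrix.mul_apply, Matrix.smul_apply, SimpleGraph.adjMatrix_apply,
    Matrix.one_apply]
  have h0 : ∑ T, Nm R Y i e T * (Nm R Y i)ᵀ T f =
      ((univ.filter fun T => inc Y e T ∧ inc Y f T).card : R) :=
    sum_mul_ite _ (fun T => Nm_val e T) (fun T => Nm_val f T) fun T => by
      rw [mem_filter]
      exact ⟨fun h => h.2, fun h => ⟨mem_univ _, h⟩⟩
  rw [h0]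
  by_cases h : e = f
  · subst h
    have h1 : (univ.filter fun T => inc Y e T ∧ inc Y e T).card = Fintype.card P - i := by
      rw [← card_bls hY e]
      refine congrArg card (Finset.ext fun T => ?_)
      rw [mem_filter, mem_bls]
      exact ⟨fun h => h.2.1, fun h => ⟨mem_univ _, h, h⟩⟩
    have h2 : i ≤ Fintype.card P := e.2.symm.le.trans (card_le_univ _)
    rw [h1, if_pos rfl, if_neg (jg P i).irrefl, Nat.cast_sub h2]
    simp
  · rw [card_both hY h, if_neg h]
    simp

open Classical in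
/-- All these graphs are cospectral. -/
theorem charpoly_eq {Y' : Finset P → Prop} (hY : Sys i Y) (hY' : Sys i Y') :
    ((JS.col (inc (i := i) Y)).adjMatrix ℤ).charpoly =
      ((JS.col (inc (i := i) Y')).adjMatrix ℤ).charpoly := by
  have h1 : ∀ {Y : Finset P → Prop}, Sys i Y → (JS.col (inc (i := i) Y)).adjMatrix ℤ =
      (Nm ℤ Y i)ᵀ * Nm ℤ Y i - Matrix.scalar (Sb P (i + 1)) ((i : ℤ) + 1) := by
    intro Y hY
    rw [NtN hY, eq_sub_iff_add_eq, Matrix.smul_one_eq_diagonal]
    rfl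
  have h2 : ((Nm ℤ Y i)ᵀ * Nm ℤ Y i).charpoly = ((Nm ℤ Y' i)ᵀ * Nm ℤ Y' i).charpoly := by
    have e1 := Matrix.charpoly_mul_comm' (Nm ℤ Y i) (Nm ℤ Y i)ᵀ
    have e2 := Matrix.charpoly_mul_comm' (Nm ℤ Y' i) (Nm ℤ Y' i)ᵀ
    rw [NNt hY] at e1
    rw [NNt hY', e1] at e2
    exact mul_left_cancel₀ (pow_ne_zero _ Polynomial.X_ne_zero) e2
  rw [h1 hY, h1 hY', Matrix.charpoly_sub_scalar, Matrix.charpoly_sub_scalar, h2]

open Classical in
/-- The graph is regular. -/
theorem regular (hY : Sys i Y) (T : Sb P (i + 1)) :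
    ((JS.col (inc (i := i) Y)).degree T : ℤ) =
      ((i : ℤ) + 1) * ((Fintype.card P : ℤ) - i) - ((i : ℤ) + 1) := by
  have h1 := SimpleGraph.adjMatrix_mulVec_const_apply (G := JS.col (inc (i := i) Y)) (α := ℤ) (a := 1)
    (v := T)
  have h2 : (JS.col (inc (i := i) Y)).adjMatrix ℤ =
      (Nm ℤ Y i)ᵀ * Nm ℤ Y i - ((i : ℤ) + 1) • 1 := by
    rw [NtN hY, add_sub_cancel_right]
  have hcard : i ≤ Fintype.card P := (Nat.le_succ i).trans (T.2.symm.le.trans (card_le_univ _))
  have h3 : Nm ℤ Y i *ᵥ (fun _ => 1) = fun _ => ((Fintype.card P : ℤ) - i) := by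
    funext e
    rw [Matrix.mulVec, dotProduct]
    have : ∀ T, Nm ℤ Y i e T * 1 = if inc Y e T then 1 else 0 := fun T => mul_one _
    simp only [this]
    rw [sum_boole]
    have h4 : (univ.filter fun T => inc Y e T).card = Fintype.card P - i := by
      rw [← card_bls hY e]
      refine congrArg card (Finset.ext fun T => ?_)
      rw [mem_filter, mem_bls]
      exact ⟨fun h => h.2, fun h => ⟨mem_univ _, h⟩⟩
    rw [h4, Nat.cast_sub hcard]
  have h4 : ((Nm ℤ Y i)ᵀ *ᵥ fun _ => ((Fintype.card P : ℤ) - i)) T =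
      ((i : ℤ) + 1) * ((Fintype.card P : ℤ) - i) := by
    rw [Matrix.mulVec, dotProduct, ← Finset.sum_mul]
    have : ∀ e, (Nm ℤ Y i)ᵀ T e = if inc Y e T then 1 else 0 := fun e => rfl
    simp only [this]
    rw [sum_boole]
    have h4 : (univ.filter fun e => inc Y e T).card = i + 1 := by
      rw [← card_els hY T]
      refine congrArg card (Finset.ext fun e => ?_)
      rw [mem_filter, mem_els]
      exact ⟨fun h => h.2, fun h => ⟨mem_univ _, h⟩⟩
    rw [h4]
    push_cast
    rfl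
  have h5 : ((JS.col (inc (i := i) Y)).adjMatrix ℤ *ᵥ Function.const _ 1) T =
      ((i : ℤ) + 1) * ((Fintype.card P : ℤ) - i) - ((i : ℤ) + 1) := by
    rw [h2, Matrix.sub_mulVec, ← Matrix.mulVec_mulVec]
    show ((Nm ℤ Y i)ᵀ *ᵥ (Nm ℤ Y i *ᵥ fun _ => 1)) T - _ = _
    rw [h3, h4, Matrix.smul_mulVec, Matrix.one_mulVec]
    simp
  rw [h5] at h1
  rw [← mul_one ((JS.col (inc (i := i) Y)).degree T : ℤ), ← h1]

end Pool.Agent.H677.JK
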