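import Pool.Agent.H677.JK.Switch

/-!
# The points and the switched sets are determined by the graph
-/

set_option autoImplicit false
set_option linter.unusedSectionVars false

namespace Pool.Agent.H677.JK

open Finset Pool.Agent.H677.JS

variable {P P' : Type} [Fintype P] [DecidableEq P] [Fintype P'] [DecidableEq P']
  {Y : Finset P → Prop} {Y' : Finset P' → Prop} {i : ℕ}

theorem jg_adj_iff (hY : Sys i Y) (e f : Sb P i) :
    (jg P i).Adj e f ↔ e ≠ f ∧ ∃ T, inc Y e T ∧ inc Y f T := by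
  constructor
  · exact fun h => ⟨h.ne, inc_exists hY h⟩
  · rintro ⟨hne, T, h1, h2⟩
    exact inc_adj hY hne h1 h2

/-- The lines are determined. -/
theorem recover_lines (hY : Sys i Y) (hY' : Sys i Y') (hP : (i + 1) * i + 2 + i ≤ Fintype.card P)
    (hP' : (i + 1) * i + 2 + i ≤ Fintype.card P')
    (φ : JS.col (inc (i := i) Y) ≃g JS.col (inc (i := i) Y')) :
    ∃ ψ : jg P i ≃g jg P' i, ∀ e T, inc Y' (ψ e) (φ T) ↔ inc Y e T := by
  have hk : (i + 1) * (i + 1 - 1) = (i + 1) * i := by rw [Nat.add_sub_cancel]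
  obtain ⟨ψ, hψ⟩ := line_recovery (k := i + 1) (fun T => (card_els hY T).le)
    (fun T => (card_els hY' T).le)
    (fun e f hne s t h1 h2 h3 h4 => inc_unique hY e f hne s t h1 h2 h3 h4)
    (fun e f hne s t h1 h2 h3 h4 => inc_unique hY' e f hne s t h1 h2 h3 h4)
    (fun e => by rw [card_bls hY, hk]; omega) (fun e => by rw [card_bls hY', hk]; omega) φ
  refine ⟨⟨ψ, ?_⟩, hψ⟩
  intro e f
  refine (jg_adj_iff hY' _ _).trans (Iff.trans ?_ (jg_adj_iff hY _ _).symm)
  refine and_congr ψ.injective.ne_iff ?_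
  constructor
  · rintro ⟨T, h1, h2⟩
    obtain ⟨T, rfl⟩ := φ.surjective T
    exact ⟨T, (hψ e T).1 h1, (hψ f T).1 h2⟩
  · rintro ⟨T, h1, h2⟩
    exact ⟨φ T, (hψ e T).2 h1, (hψ f T).2 h2⟩

/-- **The isomorphisms of Johnson graphs.** -/
theorem johnson_iso : ∀ (i : ℕ), (i + 1) * i + 2 + i ≤ Fintype.card P →
    (i + 1) * i + 2 + i ≤ Fintype.card P' → ∀ φ : jg P (i + 1) ≃g jg P' (i + 1),
    ∃ π : P ≃ P', ∀ e, (φ e).1 = e.1.map π.toEmbedding := by
  intro i
  induction i with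
  | zero =>
    intro _ _ φ
    have hs : ∀ e : Sb P (0 + 1), ∃ p, e.1 = {p} := fun e => card_eq_one.1 e.2
    have hs' : ∀ e : Sb P' (0 + 1), ∃ p, e.1 = {p} := fun e => card_eq_one.1 e.2
    choose a ha using hs
    choose a' ha' using hs'
    have h1 : ∀ p, a ⟨{p}, card_singleton p⟩ = p := fun p =>
      (singleton_injective (ha ⟨{p}, card_singleton p⟩)).symm
    have h1' : ∀ p, a' ⟨{p}, card_singleton p⟩ = p := fun p =>
      (singleton_injective (ha' ⟨{p}, card_singleton p⟩)).symm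
    have h2 : ∀ e : Sb P (0 + 1), (⟨{a e}, card_singleton _⟩ : Sb P (0 + 1)) = e :=
      fun e => Subtype.ext (ha e).symm
    have h2' : ∀ e : Sb P' (0 + 1), (⟨{a' e}, card_singleton _⟩ : Sb P' (0 + 1)) = e :=
      fun e => Subtype.ext (ha' e).symm
    refine ⟨⟨fun p => a' (φ ⟨{p}, card_singleton p⟩), fun p => a (φ.symm ⟨{p}, card_singleton p⟩),
      fun p => ?_, fun p => ?_⟩, fun e => ?_⟩
    · show a (φ.symm ⟨{a' (φ ⟨{p}, card_singleton p⟩)}, card_singleton _⟩) = p
      rw [h2', RelIso.symm_apply_apply, h1]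
    · show a' (φ ⟨{a (φ.symm ⟨{p}, card_singleton p⟩)}, card_singleton _⟩) = p
      rw [h2, RelIso.apply_symm_apply, h1']
    · obtain ⟨p, hp⟩ : ∃ p, e = ⟨{p}, card_singleton p⟩ := ⟨a e, (h2 e).symm⟩
      subst hp
      rw [ha']
      show _ = ({p} : Finset P).map _
      rw [map_singleton]
      rfl
  | succ i ih =>
    intro hP hP' φ
    have hle : (i + 1) * i + 2 + i ≤ (i + 1 + 1) * (i + 1) + 2 + (i + 1) := by
      have := Nat.mul_le_mul (Nat.le_succ (i + 1)) (Nat.le_succ i)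
      simp only [Nat.succ_eq_add_one] at this
      omega
    obtain ⟨φ', hφ'⟩ : ∃ φ' : JS.col (inc (i := i + 1) (fun _ : Finset P => False)) ≃g
        JS.col (inc (i := i + 1) (fun _ : Finset P' => False)), ∀ T, φ' T = φ T :=
      ⟨⟨φ.toEquiv, by
        intro S T
        rw [← jg_eq, ← jg_eq]
        exact φ.map_rel_iff⟩, fun _ => rfl⟩
    obtain ⟨ψ, hψ⟩ := recover_lines (sys_empty _) (sys_empty _) hP hP' φ'
    obtain ⟨π, hπ⟩ := ih (hle.trans hP) (hle.trans hP') ψ
    refine ⟨π, fun T => ?_⟩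
    symm
    refine eq_of_subset_of_card_le (fun y hy => ?_) (by rw [card_map, T.2, (φ T).2])
    rw [mem_map_equiv] at hy
    obtain ⟨x, hx, hxy⟩ : ∃ x ∈ T.1, π.symm y ≠ x := by
      have h1 : 0 < (T.1.erase (π.symm y)).card := by
        rw [card_erase_of_mem hy, T.2]
        omega
      obtain ⟨x, hx⟩ := Finset.card_pos.1 h1
      exact ⟨x, (mem_erase.1 hx).2, Ne.symm (mem_erase.1 hx).1⟩
    have he : (T.1.erase x).card = i + 1 := by
      rw [card_erase_of_mem hx, T.2]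
      rfl
    have h1 := (hψ ⟨T.1.erase x, he⟩ T).2 (inc_empty.2 (erase_subset _ _))
    rw [inc_empty, hφ', hπ] at h1
    apply h1
    rw [mem_map_equiv]
    exact mem_erase.2 ⟨hxy, hy⟩

theorem switch_map (hi : 2 ≤ i) (hY : Sys i Y) (hY' : Sys i Y') (π : P ≃ P')
    (ψ : Sb P i → Sb P' i) (φ : Sb P (i + 1) → Sb P' (i + 1))
    (hφ : ∀ e T, inc Y' (ψ e) (φ T) ↔ inc Y e T)
    (hψ : ∀ e, (ψ e).1 = e.1.map π.toEmbedding) (S : Finset P) (hS : Y S) :
    Y' (S.map π.toEmbedding) := by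
  have h4 := hY.size S hS
  obtain ⟨T, hTS, hT⟩ := Finset.exists_subset_card_eq (s := S) (n := i + 1) (by omega)
  have hR := card_rest hY hS (T := ⟨T, hT⟩) hTS
  -- the lines
  have hline : ∀ x ∈ S, ∃ e : Sb P i, x ∈ e.1 ∧ inc Y e ⟨T, hT⟩ := by
    have h0 : ∀ x ∈ T, ∃ e : Sb P i, insert x (S \ T) = e.1 ∧ inc Y e ⟨T, hT⟩ := by
      intro x hx
      have hx0 : x ∉ S \ T := fun h => (mem_sdiff.1 h).2 hx
      refine ⟨⟨insert x (S \ T), by rw [card_insert_of_notMem hx0]; exact hR⟩, rfl,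
        Or.inr ⟨S, hS, hTS, subset_insert _ _, insert_subset (hTS hx) sdiff_subset⟩⟩
    intro x hx
    by_cases hxT : x ∈ T
    · obtain ⟨e, he, h⟩ := h0 x hxT
      exact ⟨e, by rw [← he]; exact mem_insert_self _ _, h⟩
    · obtain ⟨y, hy⟩ : T.Nonempty := by
        rw [← Finset.card_pos]
        omega
      obtain ⟨e, he, h⟩ := h0 y hy
      exact ⟨e, by rw [← he]; exact mem_insert_of_mem (mem_sdiff.2 ⟨hx, hxT⟩), h⟩
  have hcover : ∀ Z : Finset P', (∀ e' : Sb P' i, inc Y' e' (φ ⟨T, hT⟩) → e'.1 ⊆ Z) →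
      S.map π.toEmbedding ⊆ Z := by
    intro Z hZ y hy
    rw [mem_map_equiv] at hy
    obtain ⟨e, he, h⟩ := hline _ hy
    have h1 := hZ _ ((hφ _ _).2 h)
    apply h1
    rw [hψ, mem_map_equiv]
    exact he
  by_cases hcase : ∃ S', Y' S' ∧ (φ ⟨T, hT⟩).1 ⊆ S'
  · obtain ⟨S', hS', hTS'⟩ := hcase
    have h1 : S.map π.toEmbedding ⊆ S' := by
      refine hcover _ fun e' he' => ?_
      rcases he' with ⟨_, hn⟩ | ⟨S'', hS'', hTS'', _, h2⟩
      · exact absurd hTS' (hn S' hS')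
      · rw [← hY'.unique hS'' hS' (φ _).2.ge hTS'' hTS']
        exact h2
    have h2 : S.map π.toEmbedding = S' :=
      eq_of_subset_of_card_le h1 (by rw [card_map, h4, hY'.size S' hS'])
    rw [h2]
    exact hS'
  · exfalso
    have h1 : S.map π.toEmbedding ⊆ (φ ⟨T, hT⟩).1 := by
      refine hcover _ fun e' he' => ?_
      rcases he' with ⟨h2, _⟩ | ⟨S', hS', hTS', _⟩
      · exact h2
      · exact absurd ⟨S', hS', hTS'⟩ hcase
    have h2 := card_le_card h1
    rw [card_map, h4, (φ ⟨T, hT⟩).2] at h2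
    omega

/-- **An isomorphism of the graphs comes from a bijection of the points.** -/
theorem recover_sys (hi : 2 ≤ i) (hY : Sys i Y) (hY' : Sys i Y')
    (hP : (i + 1) * i + 2 + i ≤ Fintype.card P) (hP' : (i + 1) * i + 2 + i ≤ Fintype.card P')
    (φ : JS.col (inc (i := i) Y) ≃g JS.col (inc (i := i) Y')) :
    ∃ π : P ≃ P', ∀ S : Finset P, Y' (S.map π.toEmbedding) ↔ Y S := by
  obtain ⟨ψ, hψ⟩ := recover_lines hY hY' hP hP' φ
  obtain ⟨j, rfl⟩ : ∃ j, i = j + 1 := ⟨i - 1, by omega⟩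
  have hle : (j + 1) * j + 2 + j ≤ (j + 1 + 1) * (j + 1) + 2 + (j + 1) := by
    have := Nat.mul_le_mul (Nat.le_succ (j + 1)) (Nat.le_succ j)
    simp only [Nat.succ_eq_add_one] at this
    omega
  obtain ⟨π, h1⟩ := johnson_iso j (hle.trans hP) (hle.trans hP') ψ
  have h2 : ∀ e, (ψ.symm e).1 = e.1.map π.symm.toEmbedding := by
    intro e
    have h3 := h1 (ψ.symm e)
    rw [RelIso.apply_symm_apply] at h3
    rw [h3, Finset.map_map]
    have h4 : π.toEmbedding.trans π.symm.toEmbedding = Function.Embedding.refl P := by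
      ext x
      exact π.symm_apply_apply x
    rw [h4, Finset.map_refl]
  refine ⟨π, fun S => ⟨fun h => ?_, fun h => ?_⟩⟩
  · have h3 := switch_map hi hY' hY π.symm ψ.symm φ.symm (fun e T => by
      have := hψ (ψ.symm e) (φ.symm T)
      rw [RelIso.apply_symm_apply, RelIso.apply_symm_apply] at this
      exact this.symm) h2 _ h
    rw [Finset.map_map] at h3
    have h4 : π.toEmbedding.trans π.symm.toEmbedding = Function.Embedding.refl P := by
      ext x
      exact π.symm_apply_apply x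
    rw [h4, Finset.map_refl] at h3
    exact h3
  · exact switch_map hi hY hY' π ψ φ hψ h1 S h

/-- The map of the subsets. -/
def mapSb (π : P ≃ P') (i : ℕ) : Sb P i ≃ Sb P' i where
  toFun T := ⟨T.1.map π.toEmbedding, by rw [card_map, T.2]⟩
  invFun T := ⟨T.1.map π.symm.toEmbedding, by rw [card_map, T.2]⟩
  left_inv T := Subtype.ext (by
    ext x
    simp)
  right_inv T := Subtype.ext (by
    ext x
    simp)

theorem map_sdiff_equiv (π : P ≃ P') (S T : Finset P) :
    S.map π.toEmbedding \ T.map π.toEmbedding = (S \ T).map π.toEmbedding := by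
  ext x
  rw [mem_sdiff, mem_map_equiv, mem_map_equiv, mem_map_equiv, mem_sdiff]

/-- A bijection of the points induces an isomorphism of the graphs. -/
theorem lift_sys (π : P ≃ P') (hπ : ∀ S : Finset P, Y' (S.map π.toEmbedding) ↔ Y S) :
    Nonempty (JS.col (inc (i := i) Y) ≃g JS.col (inc (i := i) Y')) := by
  have hsurj : ∀ S' : Finset P', ∃ S : Finset P, S.map π.toEmbedding = S' := by
    intro S'
    refine ⟨S'.map π.symm.toEmbedding, ?_⟩
    ext x
    simp
  have hinc : ∀ e T, inc Y' (mapSb π i e) (mapSb π (i + 1) T) ↔ inc Y e T := by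
    intro e T
    have e1 : (mapSb π i e).1 = e.1.map π.toEmbedding := rfl
    have e2 : (mapSb π (i + 1) T).1 = T.1.map π.toEmbedding := rfl
    unfold inc
    rw [e1, e2]
    refine or_congr (and_congr map_subset_map ?_) ?_
    · constructor
      · intro h S hS hTS
        exact h _ ((hπ S).2 hS) (map_subset_map.2 hTS)
      · intro h S' hS' hTS'
        obtain ⟨S, rfl⟩ := hsurj S'
        exact h S ((hπ S).1 hS') (map_subset_map.1 hTS')
    · constructor
      · rintro ⟨S', hS', h1, h2, h3⟩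
        obtain ⟨S, rfl⟩ := hsurj S'
        rw [map_sdiff_equiv] at h2
        exact ⟨S, (hπ S).1 hS', map_subset_map.1 h1, map_subset_map.1 h2, map_subset_map.1 h3⟩
      · rintro ⟨S, hS, h1, h2, h3⟩
        refine ⟨_, (hπ S).2 hS, map_subset_map.2 h1, ?_, map_subset_map.2 h3⟩
        rw [map_sdiff_equiv]
        exact map_subset_map.2 h2
  refine ⟨⟨mapSb π (i + 1), ?_⟩⟩
  intro T T'
  refine and_congr (mapSb π (i + 1)).injective.ne_iff ?_
  constructor
  · rintro ⟨e, h1, h2⟩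
    obtain ⟨e, rfl⟩ := (mapSb π i).surjective e
    exact ⟨e, (hinc e T).1 h1, (hinc e T').1 h2⟩
  · rintro ⟨e, h1, h2⟩
    exact ⟨mapSb π i e, (hinc e T).2 h1, (hinc e T').2 h2⟩

end Pool.Agent.H677.JK
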