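import Pool.Agent.H677.JS.Lines

/-!
# Switched Johnson graphs

Let `Y` be a family of `2 i`-subsets of `P`, any two of which have at most `i` common elements.
Every `(i + 1)`-subset `T` of `P` is incident with `i + 1` subsets of size `i`: the `i`-subsets of `T`
if `T` is contained in no member of `Y`, and the sets `(S \ T) ∪ {x}` with `x ∈ T` if `T ⊆ S` and `S`
belongs to `Y`.
-/

set_option autoImplicit false
set_option linter.unusedSectionVars false

namespace Pool.Agent.H677.JK

open Finset Pool.Agent.H677.JS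

/-- The `i`-subsets. -/
abbrev Sb (P : Type) (i : ℕ) := {e : Finset P // e.card = i}

variable {P : Type} [Fintype P] [DecidableEq P] {i : ℕ}

/-- A family of `2 i`-subsets, any two of which have at most `i` common elements. -/
structure Sys (i : ℕ) (Y : Finset P → Prop) : Prop where
  size : ∀ S, Y S → S.card = 2 * i
  meet : ∀ S S', Y S → Y S' → i + 1 ≤ (S ∩ S').card → S = S'

/-- The incidence of `i`-subsets and `(i + 1)`-subsets. -/
def inc (Y : Finset P → Prop) (e : Sb P i) (T : Sb P (i + 1)) : Prop :=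
  (e.1 ⊆ T.1 ∧ ∀ S, Y S → ¬ T.1 ⊆ S) ∨ ∃ S, Y S ∧ T.1 ⊆ S ∧ S \ T.1 ⊆ e.1 ∧ e.1 ⊆ S

/-- The Johnson graph. -/
def jg (P : Type) [DecidableEq P] (i : ℕ) : SimpleGraph (Sb P i) where
  Adj e f := (e.1 ∩ f.1).card + 1 = i
  symm := ⟨fun e f h => by rw [Finset.inter_comm]; exact h⟩
  loopless := ⟨fun e h => by
    rw [Finset.inter_self] at h
    have := e.2
    omega⟩

theorem jg_ne {e f : Sb P i} (h : (jg P i).Adj e f) : e ≠ f := h.ne

variable {Y : Finset P → Prop}

theorem Sys.unique (hY : Sys i Y) {S S' : Finset P} (hS : Y S) (hS' : Y S') {T : Finset P}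
    (h3 : i + 1 ≤ T.card) (hT : T ⊆ S) (hT' : T ⊆ S') : S = S' :=
  hY.meet S S' hS hS' (h3.trans (card_le_card (subset_inter hT hT')))

theorem card_union_of_adj {e f : Sb P i} (h : (e.1 ∩ f.1).card + 1 = i) :
    (e.1 ∪ f.1).card = i + 1 := by
  have h1 := card_union_add_card_inter e.1 f.1
  rw [e.2, f.2] at h1
  omega

/-- Two different `i`-subsets in a set with `i + 1` elements. -/
theorem adj_of_subset {e f : Sb P i} (hne : e ≠ f) {T : Finset P} (hT : T.card = i + 1)
    (he : e.1 ⊆ T) (hf : f.1 ⊆ T) : (e.1 ∩ f.1).card + 1 = i := by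
  have h1 := card_union_add_card_inter e.1 f.1
  rw [e.2, f.2] at h1
  have h2 := card_le_card (union_subset he hf)
  rw [hT] at h2
  have h0 : (e.1 ∩ f.1).card ≤ i := (card_le_card inter_subset_left).trans e.2.le
  have h3 : (e.1 ∩ f.1).card ≠ i := by
    intro h3
    apply hne
    apply Subtype.ext
    have h4 : e.1 ∩ f.1 = e.1 := eq_of_subset_of_card_le inter_subset_left (by rw [h3, e.2])
    have h5 : e.1 ∩ f.1 = f.1 := eq_of_subset_of_card_le inter_subset_right (by rw [h3, f.2])
    exact h4.symm.trans h5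
  omega

/-- Two different `i`-subsets with a common subset of `i - 1` elements. -/
theorem adj_of_common {e f : Sb P i} (hne : e ≠ f) {R : Finset P} (hR : R.card + 1 = i)
    (he : R ⊆ e.1) (hf : R ⊆ f.1) : (e.1 ∩ f.1).card + 1 = i ∧ e.1 ∩ f.1 = R := by
  have h1 := card_le_card (subset_inter he hf)
  have h2 : (e.1 ∩ f.1).card ≤ i := (card_le_card inter_subset_left).trans e.2.le
  have h3 : (e.1 ∩ f.1).card ≠ i := by
    intro h3
    apply hne
    apply Subtype.ext
    have h4 : e.1 ∩ f.1 = e.1 := eq_of_subset_of_card_le inter_subset_left (by rw [h3, e.2])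
    have h5 : e.1 ∩ f.1 = f.1 := eq_of_subset_of_card_le inter_subset_right (by rw [h3, f.2])
    exact h4.symm.trans h5
  refine ⟨by omega, ?_⟩
  symm
  exact eq_of_subset_of_card_le (subset_inter he hf) (by omega)

theorem card_rest (hY : Sys i Y) {S : Finset P} (hS : Y S) {T : Sb P (i + 1)} (hT : T.1 ⊆ S) :
    (S \ T.1).card + 1 = i := by
  have h1 := card_sdiff_of_subset hT
  have h2 := card_le_card hT
  rw [hY.size S hS, T.2] at h1 h2
  omega

theorem inc_exists (hY : Sys i Y) {e f : Sb P i} (h : (jg P i).Adj e f) :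
    ∃ T, inc Y e T ∧ inc Y f T := by
  have h : (e.1 ∩ f.1).card + 1 = i := h
  have h3 := card_union_of_adj h
  by_cases hS : ∃ S, Y S ∧ e.1 ∪ f.1 ⊆ S
  · obtain ⟨S, hS, hsub⟩ := hS
    have hR : e.1 ∩ f.1 ⊆ S := (inter_subset_left.trans subset_union_left).trans hsub
    have hcard : (S \ (e.1 ∩ f.1)).card = i + 1 := by
      rw [card_sdiff_of_subset hR, hY.size S hS]
      omega
    have hdd : S \ (S \ (e.1 ∩ f.1)) = e.1 ∩ f.1 := by
      rw [sdiff_sdiff_right_self]
      exact inter_eq_right.2 hR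
    refine ⟨⟨S \ (e.1 ∩ f.1), hcard⟩, Or.inr ⟨S, hS, sdiff_subset, ?_, ?_⟩,
      Or.inr ⟨S, hS, sdiff_subset, ?_, ?_⟩⟩
    · rw [hdd]
      exact inter_subset_left
    · exact subset_union_left.trans hsub
    · rw [hdd]
      exact inter_subset_right
    · exact subset_union_right.trans hsub
  · refine ⟨⟨e.1 ∪ f.1, h3⟩, Or.inl ⟨subset_union_left, ?_⟩, Or.inl ⟨subset_union_right, ?_⟩⟩
    · exact fun S hS' h4 => hS ⟨S, hS', h4⟩
    · exact fun S hS' h4 => hS ⟨S, hS', h4⟩

/-- Two `i`-subsets that are incident with the same `(i + 1)`-subset. -/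
theorem inc_both (hY : Sys i Y) {e f : Sb P i} {T : Sb P (i + 1)} (he : inc Y e T)
    (hf : inc Y f T) :
    (e.1 ⊆ T.1 ∧ f.1 ⊆ T.1 ∧ ∀ S, Y S → ¬ T.1 ⊆ S) ∨
      ∃ S, Y S ∧ T.1 ⊆ S ∧ e.1 ⊆ S ∧ f.1 ⊆ S ∧ S \ T.1 ⊆ e.1 ∧ S \ T.1 ⊆ f.1 := by
  rcases he with ⟨he, hn⟩ | ⟨S, hS, hT, heR, heS⟩
  · rcases hf with ⟨hf, _⟩ | ⟨S, hS, hT, _⟩
    · exact Or.inl ⟨he, hf, hn⟩
    · exact absurd hT (hn S hS)
  · rcases hf with ⟨_, hn⟩ | ⟨S', hS', hT', hfR, hfS⟩
    · exact absurd hT (hn S hS)
    · have h1 := hY.unique hS hS' T.2.ge hT hT'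
      subst h1
      exact Or.inr ⟨S, hS, hT, heS, hfS, heR, hfR⟩

theorem inc_adj (hY : Sys i Y) {e f : Sb P i} (hne : e ≠ f) {T : Sb P (i + 1)} (he : inc Y e T)
    (hf : inc Y f T) : (jg P i).Adj e f := by
  rcases inc_both hY he hf with ⟨h1, h2, _⟩ | ⟨S, hS, hT, _, _, h1, h2⟩
  · exact adj_of_subset hne T.2 h1 h2
  · exact (adj_of_common hne (card_rest hY hS hT) h1 h2).1

theorem inc_unique (hY : Sys i Y) (e f : Sb P i) (hne : e ≠ f) (T T' : Sb P (i + 1))
    (he : inc Y e T) (hf : inc Y f T) (he' : inc Y e T') (hf' : inc Y f T') : T = T' := by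
  have h3 := card_union_of_adj (inc_adj hY hne he hf)
  have hsub : ∀ {T : Sb P (i + 1)}, e.1 ⊆ T.1 → f.1 ⊆ T.1 → T.1 = e.1 ∪ f.1 := by
    intro T h1 h2
    exact (eq_of_subset_of_card_le (union_subset h1 h2) (by rw [h3, T.2])).symm
  rcases inc_both hY he hf with ⟨h1, h2, h4⟩ | ⟨S, hS, hT, h1, h2, h4, h5⟩
  · rcases inc_both hY he' hf' with ⟨h1', h2', _⟩ | ⟨S', hS', _, h1', h2', _, _⟩
    · exact Subtype.ext (by rw [hsub h1 h2, hsub h1' h2'])
    · refine absurd ?_ (h4 S' hS')
      rw [hsub h1 h2]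
      exact union_subset h1' h2'
  · rcases inc_both hY he' hf' with ⟨h1', h2', h4'⟩ | ⟨S', hS', hT', h1', h2', h4', h5'⟩
    · refine absurd ?_ (h4' S hS)
      rw [hsub h1' h2']
      exact union_subset h1 h2
    · have h6 := hY.unique hS hS' h3.ge (union_subset h1 h2) (union_subset h1' h2')
      subst h6
      have h7 := (adj_of_common hne (card_rest hY hS hT) h4 h5).2
      have h8 := (adj_of_common hne (card_rest hY hS hT') h4' h5').2
      apply Subtype.ext
      have h9 : S \ (S \ T.1) = T.1 := by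
        rw [sdiff_sdiff_right_self]
        exact inter_eq_right.2 hT
      have h10 : S \ (S \ T'.1) = T'.1 := by
        rw [sdiff_sdiff_right_self]
        exact inter_eq_right.2 hT'
      rw [← h9, ← h10, ← h7, ← h8]

/-- Every `(i + 1)`-subset is incident with `i + 1` subsets. -/
theorem card_els (hY : Sys i Y) (T : Sb P (i + 1)) : (els (inc Y) T).card = i + 1 := by
  conv_rhs => rw [← T.2]
  symm
  by_cases h : ∃ S, Y S ∧ T.1 ⊆ S
  · obtain ⟨S, hS, hT⟩ := h
    have hR := card_rest hY hS hT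
    have hx0 : ∀ x ∈ T.1, x ∉ S \ T.1 := fun x hx h => (mem_sdiff.1 h).2 hx
    refine card_bij (fun x hx => (⟨insert x (S \ T.1), by
      rw [card_insert_of_notMem (hx0 x hx)]; exact hR⟩ : Sb P i)) ?_ ?_ ?_
    · intro x hx
      refine mem_els.2 (Or.inr ⟨S, hS, hT, subset_insert _ _, ?_⟩)
      exact insert_subset (hT hx) sdiff_subset
    · intro x hx y hy hxy
      have h1 : insert x (S \ T.1) = insert y (S \ T.1) := congrArg Subtype.val hxy
      have h2 : x ∈ insert y (S \ T.1) := by
        rw [← h1]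
        exact mem_insert_self _ _
      rw [mem_insert] at h2
      exact h2.resolve_right (hx0 x hx)
    · intro e he
      obtain ⟨S', hS', hT', heS, _, heR, _⟩ : ∃ S, Y S ∧ T.1 ⊆ S ∧ e.1 ⊆ S ∧ e.1 ⊆ S ∧
          S \ T.1 ⊆ e.1 ∧ S \ T.1 ⊆ e.1 := by
        rcases inc_both hY (mem_els.1 he) (mem_els.1 he) with ⟨_, _, h1⟩ | h1
        · exact absurd hT (h1 S hS)
        · exact h1
      have h1 := hY.unique hS hS' T.2.ge hT hT'
      subst h1
      have h2 : (e.1 \ (S \ T.1)).card = 1 := by
        rw [card_sdiff_of_subset heR, e.2]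
        omega
      obtain ⟨x, hx⟩ := card_eq_one.1 h2
      have h3 : x ∈ e.1 \ (S \ T.1) := by rw [hx]; exact mem_singleton_self x
      have hxe := (mem_sdiff.1 h3).1
      have hxT : x ∈ T.1 := by
        by_contra hxT
        exact (mem_sdiff.1 h3).2 (mem_sdiff.2 ⟨heS hxe, hxT⟩)
      refine ⟨x, hxT, Subtype.ext ?_⟩
      refine eq_of_subset_of_card_le (insert_subset hxe heR) ?_
      rw [card_insert_of_notMem (hx0 x hxT), e.2]
      omega
  · have hn : ∀ S, Y S → ¬ T.1 ⊆ S := fun S hS hT => h ⟨S, hS, hT⟩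
    refine card_bij (fun x hx => (⟨T.1.erase x, by
      rw [card_erase_of_mem hx, T.2]; rfl⟩ : Sb P i)) ?_ ?_ ?_
    · exact fun x _ => mem_els.2 (Or.inl ⟨erase_subset _ _, hn⟩)
    · intro x hx y hy hxy
      have h1 : T.1.erase x = T.1.erase y := congrArg Subtype.val hxy
      by_contra hne
      have h2 : x ∈ T.1.erase y := mem_erase.2 ⟨hne, hx⟩
      rw [← h1] at h2
      exact (mem_erase.1 h2).1 rfl
    · intro e he
      have he := mem_els.1 he
      have heT : e.1 ⊆ T.1 := by
        rcases he with h1 | ⟨S, hS, hT, _⟩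
        · exact h1.1
        · exact absurd hT (hn S hS)
      have h1 : (T.1 \ e.1).card = 1 := by
        rw [card_sdiff_of_subset heT, T.2, e.2]
        omega
      obtain ⟨x, hx⟩ := card_eq_one.1 h1
      have h2 : x ∈ T.1 \ e.1 := by rw [hx]; exact mem_singleton_self x
      refine ⟨x, (mem_sdiff.1 h2).1, Subtype.ext ?_⟩
      symm
      refine eq_of_subset_of_card_le ?_ ?_
      · intro y hy
        refine mem_erase.2 ⟨?_, heT hy⟩
        rintro rfl
        exact (mem_sdiff.1 h2).2 hy
      · show (T.1.erase x).card ≤ e.1.card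
        rw [card_erase_of_mem (mem_sdiff.1 h2).1, T.2, e.2]
        omega

open Classical in
/-- The number of `(i + 1)`-subsets that are incident with two given `i`-subsets. -/
theorem card_both (hY : Sys i Y) {e f : Sb P i} (hne : e ≠ f) :
    (univ.filter fun T => inc Y e T ∧ inc Y f T).card = if (jg P i).Adj e f then 1 else 0 := by
  by_cases h : (jg P i).Adj e f
  · rw [if_pos h, card_eq_one]
    obtain ⟨T, h1, h2⟩ := inc_exists hY h
    refine ⟨T, ?_⟩
    ext T'
    rw [mem_filter, mem_singleton]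
    constructor
    · rintro ⟨_, h3, h4⟩
      exact inc_unique hY e f hne T' T h3 h4 h1 h2
    · rintro rfl
      exact ⟨mem_univ _, h1, h2⟩
  · rw [if_neg h, card_eq_zero]
    refine filter_eq_empty_iff.2 ?_
    rintro T _ ⟨h1, h2⟩
    exact h (inc_adj hY hne h1 h2)

open Classical in
/-- The number of neighbours in the Johnson graph. -/
theorem card_nbr (e : Sb P i) :
    (univ.filter fun f => (jg P i).Adj e f).card = i * (Fintype.card P - i) := by
  have h0 : (e.1 ×ˢ (univ \ e.1)).card = i * (Fintype.card P - i) := by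
    rw [card_product, e.2, card_sdiff_of_subset (subset_univ _), e.2, Finset.card_univ]
  rw [← h0]
  symm
  have hcard : ∀ x ∈ e.1 ×ˢ (univ \ e.1), (insert x.2 (e.1.erase x.1)).card = i := by
    intro x hx
    rw [mem_product, mem_sdiff] at hx
    rw [card_insert_of_notMem (fun h => hx.2.2 (mem_erase.1 h).2), card_erase_of_mem hx.1, e.2]
    have : 0 < e.1.card := Finset.card_pos.2 ⟨_, hx.1⟩
    rw [e.2] at this
    omega
  refine card_bij (fun x hx => (⟨insert x.2 (e.1.erase x.1), hcard x hx⟩ : Sb P i)) ?_ ?_ ?_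
  · intro x hx
    rw [mem_product, mem_sdiff] at hx
    rw [mem_filter]
    refine ⟨mem_univ _, ?_⟩
    show (e.1 ∩ insert x.2 (e.1.erase x.1)).card + 1 = i
    have h1 : e.1 ∩ insert x.2 (e.1.erase x.1) = e.1.erase x.1 := by
      ext y
      rw [mem_inter, mem_insert, mem_erase]
      constructor
      · rintro ⟨h1, rfl | h2⟩
        · exact absurd h1 hx.2.2
        · exact h2
      · exact fun h => ⟨h.2, Or.inr h⟩
    rw [h1, card_erase_of_mem hx.1, e.2]
    have : 0 < e.1.card := Finset.card_pos.2 ⟨_, hx.1⟩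
    rw [e.2] at this
    omega
  · intro x hx y hy hxy
    rw [mem_product, mem_sdiff] at hx hy
    have h1 : insert x.2 (e.1.erase x.1) = insert y.2 (e.1.erase y.1) := congrArg Subtype.val hxy
    have h2 : x.2 = y.2 := by
      have : x.2 ∈ insert y.2 (e.1.erase y.1) := by
        rw [← h1]
        exact mem_insert_self _ _
      rw [mem_insert] at this
      exact this.resolve_right fun h => hx.2.2 (mem_erase.1 h).2
    have h3 : x.1 = y.1 := by
      by_contra hne
      have : x.1 ∈ insert y.2 (e.1.erase y.1) := mem_insert_of_mem (mem_erase.2 ⟨hne, hx.1⟩)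
      rw [← h1, mem_insert] at this
      rcases this with h | h
      · rw [h] at hx
        exact hx.2.2 hx.1
      · exact (mem_erase.1 h).1 rfl
    exact Prod.ext h3 h2
  · intro f hf
    rw [mem_filter] at hf
    have hf : (e.1 ∩ f.1).card + 1 = i := hf.2
    have h1 : (e.1 \ f.1).card = 1 := by
      have := card_sdiff_add_card_inter e.1 f.1
      rw [e.2] at this
      omega
    have h2 : (f.1 \ e.1).card = 1 := by
      have := card_sdiff_add_card_inter f.1 e.1
      rw [f.2, Finset.inter_comm] at this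
      omega
    obtain ⟨x, hx⟩ := card_eq_one.1 h1
    obtain ⟨y, hy⟩ := card_eq_one.1 h2
    have hx' : x ∈ e.1 \ f.1 := by rw [hx]; exact mem_singleton_self x
    have hy' : y ∈ f.1 \ e.1 := by rw [hy]; exact mem_singleton_self y
    rw [mem_sdiff] at hx' hy'
    have hmem : (x, y) ∈ e.1 ×ˢ (univ \ e.1) :=
      mem_product.2 ⟨hx'.1, mem_sdiff.2 ⟨mem_univ _, hy'.2⟩⟩
    refine ⟨(x, y), hmem, Subtype.ext ?_⟩
    symm
    refine eq_of_subset_of_card_le ?_ ?_
    · intro z hz
      show z ∈ insert y (e.1.erase x)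
      rw [mem_insert, mem_erase]
      by_cases hze : z ∈ e.1
      · right
        refine ⟨?_, hze⟩
        rintro rfl
        exact hx'.2 hz
      · left
        have : z ∈ f.1 \ e.1 := mem_sdiff.2 ⟨hz, hze⟩
        rw [hy] at this
        exact mem_singleton.1 this
    · rw [hcard _ hmem, f.2]

/-- The number of `(i + 1)`-subsets that are incident with a given `i`-subset. -/
theorem card_bls (hY : Sys i Y) (e : Sb P i) : (bls (inc Y) e).card = Fintype.card P - i := by
  classical
  rcases Nat.eq_zero_or_pos i with hi | hi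
  · subst hi
    have h1 : bls (inc Y) e = (univ : Finset (Sb P (0 + 1))) := by
      refine eq_univ_of_forall fun T => mem_bls.2 (Or.inl ⟨?_, ?_⟩)
      · have h2 : e.1 = ∅ := card_eq_zero.1 e.2
        rw [h2]
        exact empty_subset _
      · intro S hS hT
        have h2 := card_le_card hT
        rw [hY.size S hS, T.2] at h2
        omega
    rw [h1, Finset.card_univ, Fintype.card_finset_len, Nat.choose_one_right, Nat.sub_zero]
  have h1 : ∑ f : Sb P i, (univ.filter fun T => inc Y e T ∧ inc Y f T).card =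
      (bls (inc Y) e).card * (i + 1) := by
    have h2 : ∀ f : Sb P i, (univ.filter fun T => inc Y e T ∧ inc Y f T).card =
        ∑ T ∈ bls (inc Y) e, if inc Y f T then 1 else 0 := by
      intro f
      rw [← card_filter]
      refine congrArg card (Finset.ext fun T => ?_)
      rw [mem_filter, mem_filter, mem_bls]
      exact ⟨fun h => h.2, fun h => ⟨mem_univ _, h⟩⟩
    simp only [h2]
    rw [sum_comm]
    have h3 : ∀ T ∈ bls (inc Y) e, ∑ f : Sb P i, (if inc Y f T then 1 else 0) = i + 1 := by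
      intro T _
      rw [← card_filter, ← card_els hY T]
      refine congrArg card (Finset.ext fun f => ?_)
      rw [mem_filter, mem_els]
      exact ⟨fun h => h.2, fun h => ⟨mem_univ _, h⟩⟩
    rw [sum_congr rfl h3, sum_const, smul_eq_mul]
  rw [← add_sum_erase _ _ (mem_univ e)] at h1
  have h3 : ∑ f ∈ univ.erase e, (univ.filter fun T => inc Y e T ∧ inc Y f T).card =
      ∑ f ∈ univ.erase e, if (jg P i).Adj e f then 1 else 0 :=
    sum_congr rfl fun f hf => card_both hY (Ne.symm (mem_erase.1 hf).1)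
  have h4 : (univ.filter fun T => inc Y e T ∧ inc Y e T).card = (bls (inc Y) e).card := by
    refine congrArg card (Finset.ext fun T => ?_)
    rw [mem_filter, mem_bls]
    exact ⟨fun h => h.2.1, fun h => ⟨mem_univ _, h, h⟩⟩
  have h5 : ∑ f ∈ univ.erase e, (if (jg P i).Adj e f then 1 else 0) =
      i * (Fintype.card P - i) := by
    rw [← card_filter, ← card_nbr e]
    refine congrArg card (Finset.ext fun f => ?_)
    rw [mem_filter, mem_filter, mem_erase]
    exact ⟨fun h => ⟨mem_univ _, h.2⟩, fun h => ⟨⟨h.2.ne', mem_univ _⟩, h.2⟩⟩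
  rw [h3, h4, h5] at h1
  have h6 : i * (bls (inc Y) e).card = i * (Fintype.card P - i) := by
    have h7 : (bls (inc Y) e).card * (i + 1) = i * (bls (inc Y) e).card +
      (bls (inc Y) e).card := by ring
    omega
  exact Nat.eq_of_mul_eq_mul_left hi h6

/-- The empty family. -/
theorem sys_empty (i : ℕ) : Sys i (fun _ : Finset P => False) :=
  ⟨fun _ h => h.elim, fun _ _ h => h.elim⟩

theorem inc_empty {e : Sb P i} {T : Sb P (i + 1)} :
    inc (fun _ : Finset P => False) e T ↔ e.1 ⊆ T.1 := by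
  constructor
  · rintro (h | ⟨_, h, _⟩)
    · exact h.1
    · exact h.elim
  · exact fun h => Or.inl ⟨h, fun _ h' => h'.elim⟩

theorem jg_eq (P : Type) [Fintype P] [DecidableEq P] (i : ℕ) :
    jg P (i + 1) = col (inc (i := i) (fun _ : Finset P => False)) := by
  ext S T
  show (S.1 ∩ T.1).card + 1 = i + 1 ↔ S ≠ T ∧ ∃ e, inc _ e S ∧ inc _ e T
  simp only [inc_empty]
  constructor
  · intro h
    refine ⟨?_, ⟨S.1 ∩ T.1, by omega⟩, inter_subset_left, inter_subset_right⟩
    rintro rfl
    rw [Finset.inter_self, S.2] at h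
    omega
  · rintro ⟨hne, e, h1, h2⟩
    have h3 : i ≤ (S.1 ∩ T.1).card := by
      have := card_le_card (subset_inter h1 h2)
      rw [e.2] at this
      exact this
    have h4 : (S.1 ∩ T.1).card ≤ i + 1 := (card_le_card inter_subset_left).trans S.2.le
    have h5 : (S.1 ∩ T.1).card ≠ i + 1 := by
      intro h5
      apply hne
      have h6 : S.1 ∩ T.1 = S.1 := eq_of_subset_of_card_le inter_subset_left (by rw [h5, S.2])
      have h7 : S.1 ∩ T.1 = T.1 := eq_of_subset_of_card_le inter_subset_right (by rw [h5, T.2])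
      exact Subtype.ext (h6.symm.trans h7)
    omega

end Pool.Agent.H677.JK
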